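import Pool.Agent.H256R2.SC.L

set_option autoImplicit false

/-! # Reciprocals of the sieving primes between `y₁` and `z` (helper824) -/

namespace Pool.Agent.Y824

open Finset Pool.Agent.H256R2.SC

open scoped Classical

theorem G_bound : ∃ CG : ℝ, 0 ≤ CG ∧ ∀ y₁ z : ℝ, 10 ≤ y₁ → y₁ ≤ z →
    ∑ p ∈ PS y₁ z ∅, 1 / (p : ℝ) ≤ Real.log (Real.log z / Real.log y₁) + CG := by
  obtain ⟨C, hC⟩ := Pool.Agent.Helper256.KM.mertens_inv
  have hC0 : 0 ≤ C := (abs_nonneg _).trans (hC 3 le_rfl)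
  refine ⟨2 * C + 1, by linarith, fun y₁ z hy hz => ?_⟩
  have hy0 : 0 ≤ y₁ := by linarith
  have hz0 : 0 ≤ z := by linarith
  set a : ℕ := ⌊y₁⌋₊ with ha
  set b : ℕ := ⌊z⌋₊ with hb
  have hab : a ≤ b := Nat.floor_le_floor hz
  have ha3 : 10 ≤ a := Nat.le_floor (by exact_mod_cast hy)
  have hb3 : 10 ≤ b := ha3.trans hab
  have h1 := (abs_le.mp (hC b (by omega))).2
  have h2 := (abs_le.mp (hC a (by omega))).1
  have hsub : (Icc 1 a).filter Nat.Prime ⊆ (Icc 1 b).filter Nat.Prime :=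
    Finset.filter_subset_filter _ (Finset.Icc_subset_Icc le_rfl hab)
  have h3 : ∑ p ∈ PS y₁ z ∅, 1 / (p : ℝ) ≤
      ∑ p ∈ (Icc 1 b).filter Nat.Prime \ (Icc 1 a).filter Nat.Prime, 1 / (p : ℝ) := by
    apply Finset.sum_le_sum_of_subset_of_nonneg
    · intro p hp
      unfold PS at hp
      rw [Finset.mem_filter] at hp
      rw [Finset.mem_sdiff, Finset.mem_filter, Finset.mem_filter]
      refine ⟨⟨hp.1, hp.2.1⟩, fun h' => ?_⟩
      have h := (Finset.mem_Icc.1 h'.1).2
      have : (p : ℝ) ≤ y₁ := by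
        calc (p : ℝ) ≤ (a : ℝ) := by exact_mod_cast h
          _ ≤ y₁ := Nat.floor_le hy0
      linarith [hp.2.2.1]
    · intro p _ _
      positivity
  have h4 : ∑ p ∈ (Icc 1 b).filter Nat.Prime \ (Icc 1 a).filter Nat.Prime, 1 / (p : ℝ) =
      ∑ p ∈ (Icc 1 b).filter Nat.Prime, 1 / (p : ℝ) -
        ∑ p ∈ (Icc 1 a).filter Nat.Prime, 1 / (p : ℝ) := by
    rw [← Finset.sum_sdiff hsub]; ring
  have hbr : (10 : ℝ) ≤ b := by exact_mod_cast hb3
  have har : (10 : ℝ) ≤ a := by exact_mod_cast ha3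
  have hly : 0 < Real.log y₁ := Real.log_pos (by linarith)
  have hlz : 0 < Real.log z := Real.log_pos (by linarith)
  have h5 : Real.log (Real.log (b : ℝ)) ≤ Real.log (Real.log z) := by
    apply Real.log_le_log (Real.log_pos (by linarith))
    exact Real.log_le_log (by linarith) (Nat.floor_le hz0)
  have h6 : Real.log (Real.log y₁) - Real.log 2 ≤ Real.log (Real.log (a : ℝ)) := by
    rw [← Real.log_div hly.ne' (by norm_num)]
    apply Real.log_le_log (by positivity)
    have e1 : y₁ / 2 ≤ a := by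
      have := Nat.lt_floor_add_one y₁
      rw [← ha] at this
      linarith
    have e2 : Real.log (y₁ / 2) ≤ Real.log a := Real.log_le_log (by linarith) e1
    rw [Real.log_div (by linarith) (by norm_num)] at e2
    have e3 : Real.log 4 ≤ Real.log y₁ := Real.log_le_log (by norm_num) (by linarith)
    have e4 : Real.log 4 = 2 * Real.log 2 := by
      rw [show (4 : ℝ) = 2 ^ 2 by norm_num, Real.log_pow]; norm_num
    linarith
  have h7 := Real.log_two_lt_d9
  have h8 : Real.log (Real.log z / Real.log y₁) =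
      Real.log (Real.log z) - Real.log (Real.log y₁) := Real.log_div hlz.ne' hly.ne'
  have h1' : ∑ p ∈ (Icc 1 b).filter Nat.Prime, 1 / (p : ℝ) ≤ Real.log (Real.log (b : ℝ)) + C := by
    linarith
  have h2' : Real.log (Real.log (a : ℝ)) - C ≤ ∑ p ∈ (Icc 1 a).filter Nat.Prime, 1 / (p : ℝ) := by
    linarith
  rw [h8]
  linarith

end Pool.Agent.Y824
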