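import Pool.Agent.Y824.CutN

set_option autoImplicit false

/-! # The parameters of the covering theorem with a lower cutoff (helper824) -/

namespace Pool.Agent.Y824

open Finset Filter

/-- the parameters -/
structure CutPar (C₀ CG X y₁ L t R l : ℝ) : Prop where
  hL : L = Real.log X
  ht : t = Real.log y₁
  hR : L = R * t
  hl : l = Real.log R
  X0 : 0 < X
  y0 : L ^ 2 ≤ y₁
  t1 : 1 ≤ t
  l10 : 10 ≤ l
  lCG : 20 * CG ≤ l
  lR : 1000 * C₀ * l ≤ R ^ (3 / 10 : ℝ)
  L100 : L ≤ Real.exp (L / 100)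
  R1000 : 1000 ≤ R
  LR : R ≤ L
  lR4 : 4000 * l ≤ R
  lL : 4000 * Real.log L ≤ L
  RL : 2 * (R * Real.log L) ≤ L

theorem cutPar_of (C₀ CG : ℝ) : ∃ R₀ : ℝ, 1000 ≤ R₀ ∧ ∀ X y₁ : ℝ, 1 < X → 10 ≤ y₁ →
    (Real.log X) ^ 2 ≤ y₁ → R₀ * Real.log y₁ ≤ Real.log X →
    CutPar C₀ CG X y₁ (Real.log X) (Real.log y₁) (Real.log X / Real.log y₁)
      (Real.log (Real.log X / Real.log y₁)) := by
  obtain ⟨R₀, hR₀⟩ := cut_ev C₀ CG
  refine ⟨max R₀ 1000, le_max_right _ _, fun X y₁ hX hy10 hy hRy => ?_⟩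
  set L := Real.log X with hL
  set t := Real.log y₁ with ht
  set R := L / t with hR
  have hLp : 0 < L := Real.log_pos hX
  have ht1 : 1 ≤ t := by
    rw [ht, Real.le_log_iff_exp_le (by linarith)]
    have := Real.exp_one_lt_d9
    linarith
  have hly : 0 < t := by linarith
  have hRR : max R₀ 1000 ≤ R := by rw [hR, le_div_iff₀ hly]; exact hRy
  obtain ⟨f1, f2, f3, f4, f5, f6⟩ := hR₀ R ((le_max_left _ _).trans hRR)
  have hLRt : L = R * t := by rw [hR]; field_simp
  have hRL : R ≤ L := by rw [hLRt]; nlinarith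
  have hL1 : 1000 ≤ L := f5.trans hRL
  have ht2 : 2 * Real.log L ≤ t := by
    rw [ht]
    have h1 : Real.log (L ^ 2) ≤ Real.log y₁ := Real.log_le_log (by positivity) hy
    rw [Real.log_pow] at h1
    exact_mod_cast h1
  refine ⟨rfl, rfl, hLRt, rfl, by linarith, hy, ht1, f1, f2, f3, exp_hundred f5 f4 hRL, f5, hRL, f6,
    four_log f5 f6 hRL, ?_⟩
  have : R * (2 * Real.log L) ≤ R * t := mul_le_mul_of_nonneg_left ht2 (by linarith)
  linarith

namespace CutPar

variable {C₀ CG X y₁ L t R l : ℝ} (h : CutPar C₀ CG X y₁ L t R l)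
include h

theorem Lpos : 0 < L := by linarith [h.R1000, h.LR]
theorem L1000 : 1000 ≤ L := by linarith [h.R1000, h.LR]
theorem Rpos : 0 < R := by linarith [h.R1000]
theorem lpos : 0 < l := by linarith [h.l10]
theorem tpos : 0 < t := by linarith [h.t1]
theorem Rexp : R = Real.exp l := by rw [h.hl, Real.exp_log h.Rpos]
theorem l_le : l ≤ Real.log L := by
  rw [h.hl]; exact Real.log_le_log h.Rpos h.LR
theorem lL4 : 4000 * l ≤ L := by linarith [h.l_le, h.lL]
theorem Rl : R * l ≤ L / 2 := by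
  have h1 := h.RL
  have h2 : R * l ≤ R * Real.log L := mul_le_mul_of_nonneg_left h.l_le h.Rpos.le
  linarith
theorem y10 : 1000 ≤ y₁ := by
  have := h.y0
  have := h.L1000
  nlinarith
theorem Xr (s : ℝ) : X ^ s = Real.exp (s * L) := by
  have : X = Real.exp L := by rw [h.hL, Real.exp_log h.X0]
  rw [this, ← Real.exp_mul, mul_comm]

/-- the tail term -/
theorem tail {c₂ c u K lz Qz : ℝ} (hc₂ : 0 < c₂) (hc0 : 0 < c) (hc8 : c ≤ 1 / 8)
    (hcc : c ≤ c₂ / 3200) (hu0 : 0 ≤ u) (hu : u ≤ c * (R * l)) (hK0 : 0 ≤ K)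
    (hK : K ≤ 8 * t / (c₂ * l))
    (hlz1 : lz ≤ L / (1000 * l)) (hlz2 : L / (2000 * l) ≤ lz) (hQz : Qz = L / 40 - lz) :
    (u + 1) * ((2 / L) ^ 2 + Real.exp (2 * u * K / lz - Qz / lz)) ≤ 1 / 8 := by
  have hl := h.lpos
  have hL := h.Lpos
  have hR := h.Rpos
  have ht := h.tpos
  have hlz : 0 < lz := lt_of_lt_of_le (by positivity) hlz2
  have hRl := h.Rl
  have huL : u ≤ L / 16 := by
    have h1 : c * (R * l) ≤ 1 / 8 * (L / 2) :=
      mul_le_mul hc8 hRl (by positivity) (by norm_num)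
    linarith
  have h1 : 2 * u * K / lz ≤ 10 * l := by
    rw [div_le_iff₀ hlz]
    have e1 : 2 * u * K ≤ 2 * (c * (R * l)) * (8 * t / (c₂ * l)) := by
      apply mul_le_mul (by linarith) hK hK0 (by positivity)
    have e2 : 2 * (c * (R * l)) * (8 * t / (c₂ * l)) = 16 * c * L / c₂ := by
      rw [h.hR]; field_simp; ring
    have e3 : 16 * c * L / c₂ ≤ L / 200 := by
      rw [div_le_iff₀ hc₂]
      nlinarith
    have e4 : L / 200 = 10 * l * (L / (2000 * l)) := by field_simp; norm_num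
    have e5 : 10 * l * (L / (2000 * l)) ≤ 10 * l * lz :=
      mul_le_mul_of_nonneg_left hlz2 (by positivity)
    linarith
  have h2 : 25 * l - 1 ≤ Qz / lz := by
    rw [hQz, sub_div, div_self hlz.ne']
    have : 25 * l ≤ L / 40 / lz := by
      rw [le_div_iff₀ hlz]
      calc 25 * l * lz ≤ 25 * l * (L / (1000 * l)) :=
            mul_le_mul_of_nonneg_left hlz1 (by positivity)
        _ = L / 40 := by field_simp; norm_num
    linarith
  have h3 : Real.exp (2 * u * K / lz - Qz / lz) ≤ 1 / R ^ 2 := by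
    have e1 : (1:ℝ) / R ^ 2 = Real.exp (-(2 * l)) := by
      rw [Real.exp_neg, h.Rexp, ← Real.exp_nat_mul]
      push_cast
      rw [one_div]
    rw [e1]
    apply Real.exp_le_exp.mpr
    have := h.l10
    linarith
  have hR1000 := h.R1000
  have hlR := h.lR4
  have h4 : (u + 1) * (2 / L) ^ 2 ≤ 1 / 16 := by
    have e1 : (2 / L) ^ 2 = 4 / L ^ 2 := by field_simp; norm_num
    have e2 : (u + 1) * (4 / L ^ 2) ≤ L * (4 / L ^ 2) := by
      apply mul_le_mul_of_nonneg_right _ (by positivity)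
      have := h.L1000
      linarith
    have e3 : L * (4 / L ^ 2) = 4 / L := by field_simp
    have e4 : 4 / L ≤ 1 / 16 := by
      rw [div_le_div_iff₀ hL (by norm_num)]
      have := h.L1000
      linarith
    rw [e1]
    linarith
  have h5 : (u + 1) * Real.exp (2 * u * K / lz - Qz / lz) ≤ 1 / 16 := by
    have e1 : u + 1 ≤ R ^ 2 / 16 := by
      have e2 : c * (R * l) ≤ 1 / 8 * (R * (R / 4000)) := by
        apply mul_le_mul hc8 _ (by positivity) (by norm_num)
        apply mul_le_mul_of_nonneg_left _ hR.le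
        linarith
      nlinarith
    calc (u + 1) * Real.exp (2 * u * K / lz - Qz / lz) ≤ (R ^ 2 / 16) * (1 / R ^ 2) :=
          mul_le_mul e1 h3 (Real.exp_pos _).le (by positivity)
      _ = 1 / 16 := by field_simp
  rw [mul_add]
  linarith

/-- the moment term -/
theorem mom {c u G : ℝ} {J : ℕ} (hc0 : 0 < c) (hc8 : c ≤ 1 / 8)
    (hu0 : 0 ≤ u) (hu : u ≤ c * (R * l)) (hJ1 : 22 * l ≤ (J : ℝ)) (hG : G ≤ l + CG) :
    u * (1 / 3) ^ J * Real.exp ((2 + 6 * 3) * G) ≤ 1 / 8 := by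
  have hl := h.lpos
  have hR := h.Rpos
  have h1 : (1 / (3:ℝ)) ^ J ≤ Real.exp (-(23 * l)) := by
    have e1 : (1 / (3:ℝ)) = Real.exp (-(Real.log 3)) := by
      rw [Real.exp_neg, Real.exp_log (by norm_num)]; norm_num
    rw [e1, ← Real.exp_nat_mul]
    apply Real.exp_le_exp.mpr
    have e2 := log_three_gt
    have e3 : 22 * l * 1.08 ≤ J * Real.log 3 :=
      mul_le_mul hJ1 e2 (by norm_num) (by positivity)
    linarith
  have h2 : Real.exp ((2 + 6 * 3) * G) ≤ Real.exp (21 * l) := by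
    apply Real.exp_le_exp.mpr
    have := h.lCG
    linarith
  have h3 : (1 / (3:ℝ)) ^ J * Real.exp ((2 + 6 * 3) * G) ≤ 1 / R ^ 2 := by
    calc (1 / (3:ℝ)) ^ J * Real.exp ((2 + 6 * 3) * G)
        ≤ Real.exp (-(23 * l)) * Real.exp (21 * l) :=
          mul_le_mul h1 h2 (Real.exp_pos _).le (Real.exp_pos _).le
      _ = Real.exp (-(2 * l)) := by rw [← Real.exp_add]; congr 1; ring
      _ = 1 / R ^ 2 := by
        rw [Real.exp_neg, h.Rexp, ← Real.exp_nat_mul]
        push_cast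
        rw [one_div]
  have h4 : u ≤ R ^ 2 / 8 := by
    have e2 : c * (R * l) ≤ 1 / 8 * (R * R) := by
      apply mul_le_mul hc8 _ (by positivity) (by norm_num)
      apply mul_le_mul_of_nonneg_left _ hR.le
      linarith [h.lR4]
    nlinarith
  calc u * (1 / (3:ℝ)) ^ J * Real.exp ((2 + 6 * 3) * G)
      = u * ((1 / (3:ℝ)) ^ J * Real.exp ((2 + 6 * 3) * G)) := by ring
    _ ≤ (R ^ 2 / 8) * (1 / R ^ 2) := mul_le_mul h4 h3 (by positivity) (by positivity)
    _ = 1 / 8 := by field_simp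

/-- the final numerical condition -/
theorem fin {u n1 z Err N : ℝ} {J : ℕ} (hu0 : 0 ≤ u) (huL : u ≤ L / 16)
    (hn0 : 0 ≤ n1) (hn1 : n1 ≤ z) (hzJ : z ^ J ≤ Real.exp (23 * L / 1000))
    (hErr0 : 0 ≤ Err) (hErr : Err ≤ X ^ (1 / 10 : ℝ)) (hN : X ^ (1 / 2 : ℝ) ≤ N) :
    Err * (9 * (Real.exp (L / 40)) ^ 4 * (1 + u * n1 ^ J)) < N / 8 := by
  rw [h.Xr] at hErr hN
  have hLpos := h.Lpos
  have hnJ0 : (0:ℝ) ≤ n1 ^ J := pow_nonneg hn0 J
  have h1 : n1 ^ J ≤ Real.exp (23 * L / 1000) := (pow_le_pow_left₀ hn0 hn1 J).trans hzJ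
  have h2 : u * n1 ^ J ≤ Real.exp (L / 100) * Real.exp (23 * L / 1000) :=
    mul_le_mul (by linarith [h.L100]) h1 hnJ0 (Real.exp_pos _).le
  have h3 : (1:ℝ) ≤ Real.exp (33 * L / 1000) := Real.one_le_exp (by positivity)
  have h4 : 1 + u * n1 ^ J ≤ 2 * Real.exp (33 * L / 1000) := by
    have : Real.exp (L / 100) * Real.exp (23 * L / 1000) = Real.exp (33 * L / 1000) := by
      rw [← Real.exp_add]; congr 1; ring
    linarith
  have h5 : (Real.exp (L / 40)) ^ 4 = Real.exp (L / 10) := by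
    rw [← Real.exp_nat_mul]; congr 1; push_cast; ring
  have h6 : Err * (9 * (Real.exp (L / 40)) ^ 4 * (1 + u * n1 ^ J)) ≤
      Real.exp (1 / 10 * L) * (9 * Real.exp (L / 10) * (2 * Real.exp (33 * L / 1000))) := by
    rw [h5]
    have h50 : (0:ℝ) ≤ 9 * Real.exp (L / 10) := mul_nonneg (by norm_num) (Real.exp_pos _).le
    have h51 : (0:ℝ) ≤ 1 + u * n1 ^ J := add_nonneg zero_le_one (mul_nonneg hu0 hnJ0)
    exact mul_le_mul hErr (mul_le_mul_of_nonneg_left h4 h50) (mul_nonneg h50 h51)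
      (Real.exp_pos _).le
  have h7 : Real.exp (1 / 10 * L) * (9 * Real.exp (L / 10) * (2 * Real.exp (33 * L / 1000))) =
      18 * Real.exp (233 * L / 1000) := by
    have : Real.exp (1 / 10 * L) * Real.exp (L / 10) * Real.exp (33 * L / 1000) =
        Real.exp (233 * L / 1000) := by
      rw [← Real.exp_add, ← Real.exp_add]; congr 1; ring
    calc _ = 18 * (Real.exp (1 / 10 * L) * Real.exp (L / 10) * Real.exp (33 * L / 1000)) := by
          ring
      _ = _ := by rw [this]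
  have h8 : 18 * Real.exp (233 * L / 1000) < Real.exp (1 / 2 * L) / 8 := by
    have e1 : Real.exp (1 / 2 * L) = Real.exp (233 * L / 1000) * Real.exp (267 * L / 1000) := by
      rw [← Real.exp_add]; congr 1; ring
    have e2 : (144:ℝ) < Real.exp (267 * L / 1000) := by
      have := Real.add_one_le_exp (267 * L / 1000)
      linarith [h.L1000]
    rw [e1]
    have := Real.exp_pos (233 * L / 1000)
    nlinarith
  linarith

end CutPar

end Pool.Agent.Y824
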