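import Pool.Agent.H256R2.SC.V1
import Pool.Agent.H256R2.SC.J
import Pool.Agent.H256R2.SC.S
import Pool.Agent.H256R2.SC.L
import Pool.Agent.Y824.CutPar
import Pool.Agent.Y824.CutG

set_option autoImplicit false
set_option linter.unusedSectionVars false

/-! # The covering theorem with a lower cutoff for the sieving primes (helper824)

The covering theorem of `Pool.Agent.H256R2.SC.V` (sieving primes above `(log X)²`, up to `c log X`
colours) for the sieving primes above an arbitrary `y₁ ≥ (log X)²`: one can kill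
`c (log X / log y₁) log (log X / log y₁)` colours. -/

namespace Pool.Agent.Y824

open Finset Filter Pool.Agent.H256R2.SC

open scoped Classical

theorem cov_cut : ∃ c : ℝ, 0 < c ∧ ∃ R₀ : ℝ, 1000 ≤ R₀ ∧ ∀ X y₁ : ℝ, 1 < X → 10 ≤ y₁ →
    (Real.log X) ^ 2 ≤ y₁ → R₀ * Real.log y₁ ≤ Real.log X →
    ∀ (κ : Type) [Fintype κ] [DecidableEq κ],
    (Fintype.card κ : ℝ) ≤
      c * (Real.log X / Real.log y₁ * Real.log (Real.log X / Real.log y₁)) →
    ∀ (res : ℕ → κ → ℤ),
    (∀ p : ℕ, p.Prime → y₁ < p → (p : ℝ) ≤ X ^ (1 / 10 : ℝ) →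
      ∀ k l, k ≠ l → ¬ ((p : ℤ) ∣ res p k - res p l)) →
    ∀ (𝒜 : Finset ℤ) (N Err : ℝ), X ^ (1 / 2 : ℝ) ≤ N → 0 ≤ Err → Err ≤ X ^ (1 / 10 : ℝ) →
    (∀ q : ℕ, Squarefree q → (q : ℝ) ≤ X ^ (1 / 4 : ℝ) →
      (∀ p ∈ q.primeFactors, y₁ < p) →
      ∀ r : ℤ, |((𝒜.filter (fun x => (q : ℤ) ∣ x - r)).card : ℝ) - N / q| ≤ Err) →
    ∃ x ∈ 𝒜, ∀ k : κ, ∃ p : ℕ, p.Prime ∧ y₁ < p ∧ (p : ℝ) ≤ X ^ (1 / 10 : ℝ) ∧
      (p : ℤ) ∣ x - res p k := by
  obtain ⟨c₂, hc₂, hAl⟩ := A_lower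
  obtain ⟨CG, hCG0, hGb⟩ := G_bound
  set C₀ : ℝ := 2 / c₂ + 1 with hC₀
  have hC1 : 1 ≤ C₀ := by
    rw [hC₀]
    have : 0 < 2 / c₂ := by positivity
    linarith
  have hC00 : 0 < C₀ := by linarith
  set c : ℝ := min (1 / 8) (c₂ / 3200) with hc
  have hc0 : 0 < c := lt_min (by norm_num) (by positivity)
  have hc8 : c ≤ 1 / 8 := min_le_left _ _
  have hcc : c ≤ c₂ / 3200 := min_le_right _ _
  obtain ⟨R₀, hR₀, hpar⟩ := cutPar_of C₀ CG
  refine ⟨c, hc0, R₀, hR₀, ?_⟩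
  intro X y₁ hX1 hy10 hy hRy κ _ _ hκ res hres 𝒜 N Err hN hErr0 hErr hcount
  have h := hpar X y₁ hX1 hy10 hy hRy
  set L : ℝ := Real.log X with hL
  set t : ℝ := Real.log y₁ with ht
  set R : ℝ := L / t with hR
  set l : ℝ := Real.log R with hl
  have hX0 := h.X0
  have hl0 := h.lpos
  have hLpos := h.Lpos
  have htpos := h.tpos
  have hRpos := h.Rpos
  have hLRt := h.hR
  have hL1000 := h.L1000
  have hl10 := h.l10
  have hy₁0 : 0 < y₁ := by linarith
  obtain ⟨m, hm1, hm2, hm3⟩ := cut_scales C₀ t R hC1 htpos h.l10 h.lR h.R1000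
  rw [← hLRt] at hm1 hm2
  rw [← hl] at hm1 hm2 hm3
  set z₀ : ℝ := Real.exp (C₀ * t) with hz₀
  set z : ℝ := z₀ ^ (2 ^ m) with hz
  have hlogz0 : Real.log z₀ = C₀ * t := Real.log_exp _
  have hz01 : 1 < z₀ := by rw [hz₀]; exact Real.one_lt_exp_iff.mpr (by positivity)
  have hlogzj : ∀ j : ℕ, Real.log (z₀ ^ (2 ^ j)) = (2:ℝ) ^ j * (C₀ * t) := by
    intro j
    rw [Real.log_pow, hlogz0]
    push_cast
    ring
  have hlogz : Real.log z = (2:ℝ) ^ m * (C₀ * t) := hlogzj m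
  have hzpos : 0 < z := by rw [hz]; positivity
  have hlz1 : Real.log z ≤ L / (1000 * l) := by rw [hlogz]; exact hm1
  have hlz2 : L / (2000 * l) ≤ Real.log z := by rw [hlogz]; exact hm2
  have hlzpos : 0 < Real.log z := lt_of_lt_of_le (by positivity) hlz2
  have hzexp : z = Real.exp (Real.log z) := (Real.exp_log hzpos).symm
  have hlzL : Real.log z ≤ L / 10000 := by
    refine hlz1.trans ?_
    apply div_le_div_of_nonneg_left hLpos.le (by norm_num)
    linarith
  have hz10 : z ≤ X ^ (1 / 10 : ℝ) := by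
    rw [hzexp, h.Xr]
    apply Real.exp_le_exp.mpr
    linarith
  have hy1 : 3 ≤ y₁ := by linarith
  have hy1L : L ^ 2 ≤ y₁ := h.y0
  have hyz : ∀ j : ℕ, y₁ ≤ z₀ ^ (2 ^ j) := by
    intro j
    have h2j : (1:ℝ) ≤ 2 ^ j := one_le_pow₀ (by norm_num)
    rw [← Real.log_le_log_iff hy₁0 (by positivity), hlogzj, ← ht]
    have h1 : 1 * (1 * t) ≤ 2 ^ j * (C₀ * t) := by
      apply mul_le_mul h2j _ (by positivity) (by positivity)
      exact mul_le_mul_of_nonneg_right hC1 htpos.le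
    linarith
  have hyz' : y₁ ≤ z := hyz m
  -- the sieving primes
  set PP : Finset ℕ := PS y₁ z ∅ with hPP
  have hPPmem : ∀ p ∈ PP, p.Prime ∧ y₁ < (p:ℝ) ∧ (p:ℝ) ≤ z := by
    intro p hp
    rw [hPP] at hp
    unfold PS at hp
    rw [Finset.mem_filter, Finset.mem_Icc] at hp
    refine ⟨hp.2.1, hp.2.2.1, ?_⟩
    calc (p:ℝ) ≤ (⌊z⌋₊ : ℝ) := by exact_mod_cast hp.1.2
      _ ≤ z := Nat.floor_le hzpos.le
  have hPprime : ∀ p ∈ PP, p.Prime := fun p hp => (hPPmem p hp).1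
  have hinj : ∀ p ∈ PP, ∀ k l : κ, k ≠ l → ¬ ((p : ℤ) ∣ res p k - res p l) := by
    intro p hp
    obtain ⟨h1, h2, h4⟩ := hPPmem p hp
    exact hres p h1 h2 (h4.trans hz10)
  set n : ℕ := PP.card with hn
  set P : Fin n → ℝ := fun i => ((emb PP i : ℕ) : ℝ) with hP
  set g : Fin n → ℝ := fun i => 1 / ((emb PP i : ℕ) : ℝ) with hg
  have hPy : ∀ i, y₁ < P i := fun i => (hPPmem _ (emb_mem PP i)).2.1
  have hPz : ∀ i, P i ≤ z := fun i => (hPPmem _ (emb_mem PP i)).2.2
  have hP1 : ∀ i, 1 < P i := fun i => by linarith [hPy i]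
  have hP0 : ∀ i, 0 < P i := fun i => by linarith [hPy i]
  have hgP : ∀ i, g i = 1 / P i := fun i => rfl
  have hg0 : ∀ i, 0 < g i := fun i => by
    rw [hgP]
    exact div_pos one_pos (hP0 i)
  have hgy : ∀ i, g i ≤ 1 / y₁ := fun i => by
    rw [hgP]
    exact one_div_le_one_div_of_le hy₁0 (hPy i).le
  have hgL : ∀ i, g i ≤ 1 / L ^ 2 := fun i =>
    (hgy i).trans (one_div_le_one_div_of_le (by positivity) hy1L)
  -- the profile
  set lam : ℝ := c₂ / (2 * t) with hlam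
  have hlam0 : 0 < lam := by positivity
  have hA : ∀ j < m + 1, 1 ≤ Asum P g (z₀ ^ (2 ^ j)) ∧
      lam * (2 ^ j * Real.log z₀) ≤ Asum P g (z₀ ^ (2 ^ j)) := by
    intro j hj
    have h1 : Asum P g (z₀ ^ (2 ^ j)) = _ := Asum_enum PP (z₀ ^ (2 ^ j))
    have h2j : (1:ℝ) ≤ 2 ^ j := one_le_pow₀ (by norm_num)
    have hxz : z₀ ^ (2 ^ j) ≤ z := by
      rw [hz]
      exact pow_le_pow_right₀ hz01.le (Nat.pow_le_pow_right (by norm_num) (by omega))
    have h2 := hAl y₁ z (z₀ ^ (2 ^ j)) ∅ hy1 (hyz j) hxz (by simpa using hy₁0.le)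
    have h3 : c₂ * Real.log (z₀ ^ (2 ^ j)) / Real.log y₁ = c₂ * (2 ^ j * C₀) := by
      rw [hlogzj, ← ht]
      field_simp
    rw [h3] at h2
    have h4 : c₂ * C₀ = 2 + c₂ := by
      rw [hC₀]
      field_simp
    have h5 : c₂ * (2 ^ j * C₀) - 1 ≤ Asum P g (z₀ ^ (2 ^ j)) := by
      rw [h1]
      exact h2
    have h6 : 2 ≤ c₂ * (2 ^ j * C₀) := by
      calc (2:ℝ) ≤ c₂ * C₀ := by linarith
        _ = c₂ * (1 * C₀) := by ring
        _ ≤ c₂ * (2 ^ j * C₀) := by
          apply mul_le_mul_of_nonneg_left _ hc₂.le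
          apply mul_le_mul_of_nonneg_right h2j (by linarith)
    refine ⟨by linarith, ?_⟩
    have h7 : lam * (2 ^ j * Real.log z₀) = c₂ * (2 ^ j * C₀) / 2 := by
      rw [hlam, hlogz0]
      field_simp
    rw [h7]
    linarith
  obtain ⟨hh, H⟩ := exists_h P g hP1 hg0 (m + 1) (by omega) z₀ lam hz01 hlam0 hA
  have hzz : z₀ ^ (2 ^ (m + 1 - 1)) = z := by rw [hz, Nat.add_sub_cancel]
  rw [hzz] at H
  set K : ℝ := 4 / (lam * ((m + 1 : ℕ) : ℝ)) with hK
  have hK8 : K ≤ 8 * t / (c₂ * l) := by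
    rw [hK, div_le_div_iff₀ (by positivity) (by positivity)]
    have h1 : c₂ * l / (2 * t) ≤ lam * ((m + 1 : ℕ) : ℝ) := by
      push_cast
      calc c₂ * l / (2 * t) = lam * l := by rw [hlam]; field_simp
        _ ≤ lam * (m + 1) := mul_le_mul_of_nonneg_left hm3 hlam0.le
    calc 4 * (c₂ * l) = 8 * t * (c₂ * l / (2 * t)) := by field_simp; norm_num
      _ ≤ 8 * t * (lam * ((m + 1 : ℕ) : ℝ)) := mul_le_mul_of_nonneg_left h1 (by positivity)
  have hK0 : 0 ≤ K := H.K0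
  set u : ℝ := (Fintype.card κ : ℝ) with hu
  have hu0 : 0 ≤ u := Nat.cast_nonneg _
  have huL : u ≤ L / 16 := by
    have h1 : c * (R * l) ≤ 1 / 8 * (L / 2) :=
      mul_le_mul hc8 h.Rl (by positivity) (by norm_num)
    linarith
  -- the sum of the reciprocals
  have hG : ∑ i, g i ≤ l + CG := by
    have h1 : ∑ i, g i = ∑ p ∈ PP, 1 / (p:ℝ) := by
      have : PP = univ.map (emb PP) := by
        ext p
        rw [Finset.mem_map]
        constructor
        · intro hp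
          obtain ⟨i, hi⟩ := emb_surj PP hp
          exact ⟨i, Finset.mem_univ _, hi⟩
        · rintro ⟨i, _, rfl⟩
          exact emb_mem PP i
      conv_rhs => rw [this]
      rw [Finset.sum_map]
    have h2 := hGb y₁ z hy10 hyz'
    have h3 : Real.log (Real.log z / Real.log y₁) ≤ l := by
      rw [hl, hR]
      apply Real.log_le_log (div_pos hlzpos htpos)
      apply div_le_div_of_nonneg_right _ htpos.le
      linarith
    rw [h1]
    linarith
  have hGL : ∑ i, g i ≤ 2 * L := by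
    have h1 := h.lCG
    have h2 := h.lL4
    linarith
  have hGn : 0 ≤ ∑ i, g i := Finset.sum_nonneg (fun i _ => (hg0 i).le)
  -- parameters
  set Q : ℝ := Real.exp (L / 40) with hQ
  set J : ℕ := 2 * ⌈11 * l⌉₊ with hJ
  have hJ1 : 22 * l ≤ (J:ℝ) := by
    have := Nat.le_ceil (11 * l)
    rw [hJ]; push_cast; linarith
  have hJ2 : (J:ℝ) ≤ 23 * l := by
    have := Nat.ceil_lt_add_one (show 0 ≤ 11 * l by positivity)
    rw [hJ]; push_cast; linarith
  have hJe : Even J := ⟨⌈11 * l⌉₊, by rw [hJ]; ring⟩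
  have hQ1 : 1 ≤ Q := Real.one_le_exp (by positivity)
  have hzJ : z ^ J ≤ Real.exp (23 * L / 1000) := by
    rw [hzexp, ← Real.exp_nat_mul]
    apply Real.exp_le_exp.mpr
    calc (J:ℝ) * Real.log z ≤ (23 * l) * (L / (1000 * l)) :=
          mul_le_mul hJ2 hlz1 hlzpos.le (by positivity)
      _ = 23 * L / 1000 := by field_simp
  -- sizes of supports
  have hsupp : ∀ D : Col n κ, qq P D ≤ Q → ((supp D).card : ℝ) ≤ L / 40 := by
    intro D hD
    have h1 : Real.exp ((supp D).card : ℝ) ≤ qq P D := by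
      unfold qq
      rw [prod_nu1]
      have : Real.exp ((supp D).card : ℝ) = ∏ i ∈ supp D, Real.exp 1 := by
        rw [Finset.prod_const, ← Real.exp_nat_mul, mul_one]
      rw [this]
      apply Finset.prod_le_prod
      · intro i _; exact (Real.exp_pos _).le
      · intro i _
        have := Real.exp_one_lt_d9
        linarith [hPy i]
    have h2 := h1.trans hD
    rw [hQ] at h2
    exact Real.exp_le_exp.mp h2
  have hδ : ∀ D : Col n κ, qq P D ≤ Q → 2 * ∑ i with D i ≠ none, g i ≤ 2 / L := by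
    intro D hD
    have h1 : ∑ i with D i ≠ none, g i ≤ (supp D).card * (1 / L ^ 2) := by
      have : ∑ i ∈ supp D, g i ≤ ∑ i ∈ supp D, (1 / L ^ 2) :=
        Finset.sum_le_sum (fun i _ => hgL i)
      rw [Finset.sum_const, nsmul_eq_mul] at this
      exact this
    have h2 := hsupp D hD
    have h3 : ((supp D).card : ℝ) * (1 / L ^ 2) ≤ L / 40 * (1 / L ^ 2) :=
      mul_le_mul_of_nonneg_right h2 (by positivity)
    have h4 : L / 40 * (1 / L ^ 2) = 1 / (40 * L) := by field_simp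
    have h5 : 1 / (40 * L) ≤ 1 / L := by
      apply one_div_le_one_div_of_le hLpos
      linarith
    have h6 : 2 / L = 2 * (1 / L) := by ring
    rw [h6]
    linarith
  -- the count
  have hevent : ∀ D : Col n κ, qq P D ≤ Q ^ 2 * z ^ J →
      |((𝒜.filter (fun a => ∀ i, D i ≠ none → colr PP res a i = D i)).card : ℝ) - N * nu g D| ≤
        Err := by
    intro D hD
    obtain ⟨r, hr⟩ := event_iff hPprime hinj D
    have h1 : (𝒜.filter (fun a => ∀ i, D i ≠ none → colr PP res a i = D i)) =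
        𝒜.filter (fun a => ((qn PP D : ℕ) : ℤ) ∣ a - r) := by
      apply Finset.filter_congr
      intro a _
      exact hr a
    rw [h1]
    have h2 : nu g D = 1 / ((qn PP D : ℕ) : ℝ) := nu_eq PP D
    rw [h2, mul_one_div]
    apply hcount (qn PP D) (qn_squarefree hPprime D)
    · rw [qn_cast]
      refine le_trans hD ?_
      rw [h.Xr]
      calc Q ^ 2 * z ^ J ≤ Real.exp (L / 40) ^ 2 * Real.exp (23 * L / 1000) :=
            mul_le_mul_of_nonneg_left hzJ (by positivity)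
        _ = Real.exp (L / 20 + 23 * L / 1000) := by
            rw [← Real.exp_nat_mul, ← Real.exp_add]
            congr 1
            push_cast
            ring
        _ ≤ Real.exp (1 / 4 * L) := Real.exp_le_exp.mpr (by linarith)
    · intro p hp
      exact (hPPmem p (qn_primeFactors hPprime D hp)).2.1
  have hn1 : (n:ℝ) + 1 ≤ z := by
    have h1 : PP ⊆ Finset.Icc 2 ⌊z⌋₊ := by
      intro p hp
      have hp' := hp
      rw [hPP] at hp'
      unfold PS at hp'
      rw [Finset.mem_filter, Finset.mem_Icc] at hp'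
      rw [Finset.mem_Icc]
      exact ⟨hp'.2.1.two_le, hp'.1.2⟩
    have h2 := Finset.card_le_card h1
    rw [Nat.card_Icc] at h2
    have h3 : 1 ≤ ⌊z⌋₊ := Nat.le_floor (by
      push_cast
      have : Real.exp 0 ≤ z := by rw [hzexp]; exact Real.exp_le_exp.mpr hlzpos.le
      simpa using this)
    have h4 : n + 1 ≤ ⌊z⌋₊ := by
      rw [hn]
      omega
    calc (n:ℝ) + 1 ≤ (⌊z⌋₊ : ℝ) := by exact_mod_cast h4
      _ ≤ z := Nat.floor_le hzpos.le
  have hNpos : 0 < N := lt_of_lt_of_le (Real.rpow_pos_of_pos hX0 _) hN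
  have hQz : Real.log (Q / z) = L / 40 - Real.log z := by
    rw [Real.log_div (by positivity) hzpos.ne', hQ, Real.log_exp]
  -- apply the core theorem
  have hug : ∀ i, u * g i ≤ 1 := fun i => by
    have h1 : u * g i ≤ (L / 16) * (1 / L ^ 2) := mul_le_mul huL (hgL i) (hg0 i).le (by positivity)
    have h2 : (L / 16) * (1 / L ^ 2) = 1 / (16 * L) := by field_simp
    have h3 : 1 / (16 * L) ≤ 1 := by rw [div_le_one (by positivity)]; linarith
    linarith
  have hs2 : 2 * u * ∑ i, 1 / (P i) ^ 2 ≤ 1 := by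
    have h1 : ∑ i, 1 / (P i) ^ 2 ≤ (1 / L ^ 2) * ∑ i, g i := by
      rw [Finset.mul_sum]
      apply Finset.sum_le_sum
      intro i _
      have : 1 / (P i) ^ 2 = g i * g i := by rw [hgP]; field_simp
      rw [this]
      exact mul_le_mul_of_nonneg_right (hgL i) (hg0 i).le
    have h2 : (1 / L ^ 2) * ∑ i, g i ≤ (1 / L ^ 2) * (2 * L) :=
      mul_le_mul_of_nonneg_left hGL (by positivity)
    have h3 : (1 / L ^ 2) * (2 * L) = 2 / L := by field_simp
    have h4 : 2 * u * ∑ i, 1 / (P i) ^ 2 ≤ 2 * (L / 16) * (2 / L) := by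
      apply mul_le_mul _ (by linarith) (Finset.sum_nonneg (fun i _ => by positivity))
        (by positivity)
      linarith
    have e : 2 * (L / 16) * (2 / L) = 1 / 4 := by field_simp; norm_num
    linarith
  obtain ⟨a, ha, hcov⟩ := core (κ := κ) 𝒜 (colr PP res) H Q (2 / L) 3 N Err J hJe (by norm_num)
    hNpos hErr0 hQ1 hPz
    (fun i => by
      have h1 : (1:ℝ) / y₁ ≤ 1 := by rw [div_le_one hy₁0]; linarith
      exact (hgy i).trans h1)
    (fun i => by
      have h1 : (1:ℝ) / y₁ ≤ 1 / 9 := one_div_le_one_div_of_le (by norm_num) (by linarith)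
      have := hgy i
      linarith)
    hug hδ
    (by
      have : u * (2 / L) ≤ (L / 16) * (2 / L) := mul_le_mul_of_nonneg_right huL (by positivity)
      have e : (L / 16) * (2 / L) = 1 / 8 := by field_simp; norm_num
      linarith)
    hs2
    (h.tail hc₂ hc0 hc8 hcc hu0 hκ hK0 hK8 hlz1 hlz2 hQz)
    (h.mom hc0 hc8 hu0 hκ hJ1 hG)
    hevent
    (h.fin hu0 huL (add_nonneg (Nat.cast_nonneg n) zero_le_one) hn1 hzJ hErr0 hErr hN)
  refine ⟨a, ha, fun k => ?_⟩
  obtain ⟨i, hi⟩ := hcov k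
  have h1 := (colr_eq hinj a i k).mp hi
  have h2 := hPPmem _ (emb_mem PP i)
  exact ⟨emb PP i, h2.1, h2.2.1, h2.2.2.trans hz10, h1⟩

end Pool.Agent.Y824
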