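import Mathlib

set_option autoImplicit false

/-! # Covering with a lower cutoff: numerical facts (helper824) -/

namespace Pool.Agent.Y824

open Finset Filter

/-- all largeness conditions on the ratio `R = log X / log y₁` -/
theorem cut_ev (C₀ CM : ℝ) : ∃ R₀ : ℝ, ∀ R : ℝ, R₀ ≤ R →
    10 ≤ Real.log R ∧ 20 * CM ≤ Real.log R ∧ 1000 * C₀ * Real.log R ≤ R ^ (3 / 10 : ℝ) ∧
      R ≤ Real.exp (R / 100) ∧ 1000 ≤ R ∧ 4000 * Real.log R ≤ R := by
  have h1 : ∀ᶠ R : ℝ in atTop, 10 ≤ Real.log R := Real.tendsto_log_atTop.eventually_ge_atTop 10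
  have h2 : ∀ᶠ R : ℝ in atTop, 20 * CM ≤ Real.log R :=
    Real.tendsto_log_atTop.eventually_ge_atTop _
  have h3 : ∀ᶠ R : ℝ in atTop, 1000 * C₀ * Real.log R ≤ R ^ (3 / 10 : ℝ) := by
    have e1 : (fun R : ℝ => Real.log R) =o[atTop] (fun R : ℝ => R ^ (3 / 10 : ℝ)) :=
      isLittleO_log_rpow_atTop (by norm_num)
    have e2 := e1.def (show (0:ℝ) < 1 / (1000 * |C₀| + 1) by positivity)
    filter_upwards [e2, h1, eventually_ge_atTop (1:ℝ)] with R hR hR1 hR2
    rw [Real.norm_eq_abs, Real.norm_eq_abs, abs_of_nonneg (Real.rpow_nonneg (by linarith) _),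
      abs_of_nonneg (by linarith)] at hR
    have e4 : (1000 * |C₀| + 1) * Real.log R ≤ R ^ (3 / 10 : ℝ) := by
      rw [div_mul_eq_mul_div, one_mul, le_div_iff₀ (by positivity)] at hR
      linarith
    have e5 : 1000 * C₀ * Real.log R ≤ (1000 * |C₀| + 1) * Real.log R := by
      apply mul_le_mul_of_nonneg_right _ (by linarith)
      linarith [le_abs_self C₀]
    linarith
  have h4 : ∀ᶠ R : ℝ in atTop, R ≤ Real.exp (R / 100) := by
    have e1 := Real.isLittleO_log_id_atTop.def (show (0:ℝ) < 1 / 100 by norm_num)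
    filter_upwards [e1, eventually_ge_atTop (1:ℝ)] with R hR hR1
    rw [Real.norm_eq_abs, abs_of_nonneg (Real.log_nonneg hR1), Real.norm_eq_abs] at hR
    simp only [id] at hR
    rw [abs_of_nonneg (by linarith)] at hR
    calc R = Real.exp (Real.log R) := (Real.exp_log (by linarith)).symm
      _ ≤ Real.exp (R / 100) := Real.exp_le_exp.mpr (by linarith)
  have h5 : ∀ᶠ R : ℝ in atTop, 4000 * Real.log R ≤ R := by
    have e1 := Real.isLittleO_log_id_atTop.def (show (0:ℝ) < 1 / 4000 by norm_num)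
    filter_upwards [e1, eventually_ge_atTop (1:ℝ)] with R hR hR1
    rw [Real.norm_eq_abs, abs_of_nonneg (Real.log_nonneg hR1), Real.norm_eq_abs] at hR
    simp only [id] at hR
    rw [abs_of_nonneg (by linarith)] at hR
    linarith
  obtain ⟨R₀, h⟩ := Filter.eventually_atTop.mp
    (((((h1.and h2).and h3).and h4).and (eventually_ge_atTop (1000:ℝ))).and h5)
  exact ⟨R₀, fun R hR => ⟨(h R hR).1.1.1.1.1, (h R hR).1.1.1.1.2, (h R hR).1.1.1.2,
    (h R hR).1.1.2, (h R hR).1.2, (h R hR).2⟩⟩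

/-- monotonicity of `t / log t` -/
theorem four_log {R L : ℝ} (hR : 1000 ≤ R) (h : 4000 * Real.log R ≤ R) (hRL : R ≤ L) :
    4000 * Real.log L ≤ L := by
  have h0 : 0 < R := by linarith
  have h1 : Real.log L = Real.log R + Real.log (L / R) := by
    rw [Real.log_div (by linarith) (by linarith)]; ring
  have h2 : Real.log (L / R) ≤ L / R - 1 :=
    Real.log_le_sub_one_of_pos (div_pos (by linarith) h0)
  have h3 : 8 ≤ Real.log R * 2 := by
    have : Real.exp 4 ≤ R := by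
      have e := Real.exp_one_lt_d9
      have e2 : Real.exp 4 = Real.exp 1 ^ 4 := by rw [← Real.exp_nat_mul]; norm_num
      rw [e2]
      have e3 : Real.exp 1 ^ 4 ≤ 2.72 ^ 4 := pow_le_pow_left₀ (Real.exp_pos _).le (by linarith) 4
      norm_num at e3
      linarith
    have := Real.log_le_log (Real.exp_pos _) this
    rw [Real.log_exp] at this
    linarith
  have h4 : (L / R - 1) * (4000 * Real.log R) ≤ (L / R - 1) * R := by
    apply mul_le_mul_of_nonneg_left h
    rw [sub_nonneg, le_div_iff₀ h0]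
    linarith
  have h5 : (L / R - 1) * R = L - R := by field_simp
  have h6 : 0 ≤ L / R - 1 := by
    rw [sub_nonneg, le_div_iff₀ h0]; linarith
  nlinarith

theorem exp_hundred {R L : ℝ} (hR : 1000 ≤ R) (h : R ≤ Real.exp (R / 100)) (hRL : R ≤ L) :
    L ≤ Real.exp (L / 100) := by
  have h1 : Real.exp (L / 100) = Real.exp (R / 100) * Real.exp ((L - R) / 100) := by
    rw [← Real.exp_add]; congr 1; ring
  have h2 := Real.add_one_le_exp ((L - R) / 100)
  have h3 : 0 ≤ (L - R) / 100 + 1 := by linarith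
  have h4 : R * ((L - R) / 100 + 1) ≤ Real.exp (R / 100) * Real.exp ((L - R) / 100) :=
    mul_le_mul h h2 h3 (Real.exp_pos _).le
  rw [h1]
  nlinarith

/-- the number of scales -/
theorem cut_scales (C₀ t R : ℝ) (hC : 1 ≤ C₀) (ht : 0 < t) (h1 : 10 ≤ Real.log R)
    (h3 : 1000 * C₀ * Real.log R ≤ R ^ (3 / 10 : ℝ)) (h5 : 1000 ≤ R) :
    ∃ m : ℕ, (2:ℝ) ^ m * (C₀ * t) ≤ R * t / (1000 * Real.log R) ∧
      R * t / (2000 * Real.log R) ≤ (2:ℝ) ^ m * (C₀ * t) ∧ Real.log R ≤ m + 1 := by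
  set l := Real.log R with hl
  have hl0 : 0 < l := by linarith
  set W : ℝ := R / (1000 * C₀ * l) with hW
  have hden : 0 < 1000 * C₀ * l := by positivity
  have hR0 : 0 < R := by linarith
  have hW1 : R ^ (7 / 10 : ℝ) ≤ W := by
    rw [hW, le_div_iff₀ hden]
    calc R ^ (7 / 10 : ℝ) * (1000 * C₀ * l) ≤ R ^ (7 / 10 : ℝ) * R ^ (3 / 10 : ℝ) :=
          mul_le_mul_of_nonneg_left h3 (Real.rpow_nonneg hR0.le _)
      _ = R := by rw [← Real.rpow_add hR0]; norm_num
  have hW0 : 1 ≤ W := by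
    refine le_trans ?_ hW1
    exact Real.one_le_rpow (by linarith) (by norm_num)
  have hfl : ⌊W⌋₊ ≠ 0 := by
    have : 1 ≤ ⌊W⌋₊ := Nat.le_floor (by simpa using hW0)
    omega
  set m : ℕ := Nat.log 2 ⌊W⌋₊ with hm
  have hm1 : (2:ℝ) ^ m ≤ W := by
    have e1 : 2 ^ m ≤ ⌊W⌋₊ := Nat.pow_log_le_self 2 hfl
    calc (2:ℝ) ^ m ≤ (⌊W⌋₊ : ℝ) := by exact_mod_cast e1
      _ ≤ W := Nat.floor_le (by linarith)
  have hm2 : W < (2:ℝ) ^ (m + 1) := by
    have e1 : ⌊W⌋₊ < 2 ^ (m + 1) := Nat.lt_pow_succ_log_self (by norm_num) _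
    have e2 : ⌊W⌋₊ + 1 ≤ 2 ^ (m + 1) := e1
    calc W < (⌊W⌋₊ : ℝ) + 1 := Nat.lt_floor_add_one W
      _ ≤ (2:ℝ) ^ (m + 1) := by exact_mod_cast e2
  have hWl : W * (C₀ * t) = R * t / (1000 * l) := by
    rw [hW]
    field_simp
  refine ⟨m, ?_, ?_, ?_⟩
  · calc (2:ℝ) ^ m * (C₀ * t) ≤ W * (C₀ * t) :=
        mul_le_mul_of_nonneg_right hm1 (by positivity)
      _ = R * t / (1000 * l) := hWl
  · have e1 : W * (C₀ * t) ≤ (2:ℝ) ^ (m + 1) * (C₀ * t) :=
      mul_le_mul_of_nonneg_right hm2.le (by positivity)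
    rw [hWl, pow_succ] at e1
    have e2 : R * t / (1000 * l) = 2 * (R * t / (2000 * l)) := by
      field_simp
      ring
    nlinarith
  · by_contra hc
    push Not at hc
    have e1 : (2:ℝ) ^ (m + 1) ≤ R ^ (7 / 10 : ℝ) := by
      have e2 : (2:ℝ) ^ (m + 1) = Real.exp (Real.log 2 * (m + 1)) := by
        rw [← Real.rpow_natCast, Real.rpow_def_of_pos (by norm_num)]
        push_cast
        rfl
      rw [e2, Real.rpow_def_of_pos hR0]
      apply Real.exp_le_exp.mpr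
      have e3 := Real.log_two_lt_d9
      have e4 : (0:ℝ) ≤ (m:ℝ) + 1 := by positivity
      have e5 : Real.log 2 * (m + 1) ≤ 0.7 * (m + 1) := by nlinarith
      rw [← hl]
      nlinarith
    linarith

theorem log_three_gt : 1.08 ≤ Real.log 3 := by
  have h2 := Real.log_two_gt_d9
  have e1 : 7 * Real.log 3 = Real.log (3 ^ 7) := by rw [Real.log_pow]; norm_num
  have e2 : 11 * Real.log 2 = Real.log (2 ^ 11) := by rw [Real.log_pow]; norm_num
  have e3 : Real.log ((2:ℝ) ^ 11) ≤ Real.log (3 ^ 7) :=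
    Real.log_le_log (by positivity) (by norm_num)
  linarith

end Pool.Agent.Y824
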