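import Pool.Agent.Y824.RunOne
import Pool.Agent.H256R2.SC.G1

set_option autoImplicit false

/-! # From presieving and covering to a run of integers with small largest prime factor
(helper824) -/

namespace Pool.Agent.Y824

open Finset

open scoped Classical

/-- inside `(z, z + X]` there is a run `(n, n + W]` in which every integer `k` has all its prime
factors smaller than `k / M` -/
def Run (z : ℕ) (X M W : ℝ) : Prop :=
  ∃ n : ℕ, z < n ∧ (n : ℝ) + W ≤ z + X ∧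
    ∀ k : ℕ, n < k → (k : ℝ) ≤ n + W → ∀ q : ℕ, q.Prime → q ∣ k → M * q < k

theorem Run.mono {z : ℕ} {X M W W' : ℝ} (h : Run z X M W) (hW : W' ≤ W) : Run z X M W' := by
  obtain ⟨n, h1, h2, h3⟩ := h
  exact ⟨n, h1, by linarith, fun k hk hk' => h3 k hk (by linarith)⟩

theorem exists_crt2 (T : ℕ) (hT : 0 < T) (S : Finset ℕ) (b : ℕ → ℕ)
    (hS : ∀ p ∈ S, p.Prime ∧ ¬ p ∣ T ∧ b p < p) :
    ∃ b0 : ℕ, b0 < T * ∏ p ∈ S, p ∧ T ∣ b0 ∧ ∀ p ∈ S, p ∣ b0 + b p := by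
  have hs : ∀ i ∈ S, (id i : ℕ) ≠ 0 := fun i hi => (hS i hi).1.ne_zero
  have pp : Set.Pairwise (S : Set ℕ) (Function.onFun Nat.Coprime id) := by
    intro i hi j hj hij
    exact (Nat.coprime_primes (hS i (mem_coe.1 hi)).1 (hS j (mem_coe.1 hj)).1).2 hij
  set u := Nat.chineseRemainderOfFinset (fun p => p - b p) id _ hs pp with hu
  have hco : Nat.Coprime T (∏ p ∈ S, p) :=
    Nat.Coprime.prod_right fun p hp =>
      ((Nat.Prime.coprime_iff_not_dvd (hS p hp).1).2 (hS p hp).2.1).symm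
  have hprod : ∏ p ∈ S, p ≠ 0 := prod_ne_zero_iff.2 hs
  refine ⟨Nat.chineseRemainder hco 0 u.1,
    Nat.chineseRemainder_lt_mul hco 0 u.1 hT.ne' hprod, ?_, ?_⟩
  · exact (Nat.modEq_zero_iff_dvd).1 (Nat.chineseRemainder hco 0 u.1).2.1
  · intro p hp
    have h1 : (Nat.chineseRemainder hco 0 u.1 : ℕ) ≡ u.1 [MOD p] :=
      (Nat.chineseRemainder hco 0 u.1).2.2.of_dvd (dvd_prod_of_mem _ hp)
    have h2 : u.1 ≡ p - b p [MOD p] := u.2 p hp
    have h3 := (h1.trans h2).add_right (b p)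
    rw [Nat.sub_add_cancel (hS p hp).2.2.le] at h3
    exact (Nat.modEq_zero_iff_dvd).1 (h3.trans (by simp [Nat.ModEq]))

open Pool.Agent.H256R2.SC.LG in
theorem run_good {c X y M W : ℝ} {L : ℕ} (hcov : CovAt c X) (hgood : Good y L M (c * Real.log X))
    (z : ℕ) (hX1 : 1 ≤ X) (hyX : y ≤ (Real.log X) ^ 2) (hL : (L : ℝ) ≤ (Real.log X) ^ 2)
    (hlog : 0 ≤ Real.log X)
    (hP : 4 * Real.exp (2 * y) ≤ X ^ (1 / 2 : ℝ)) (hX10 : 2 ≤ X ^ (1 / 10 : ℝ))
    (hM1 : 1 ≤ M) (hM : M ≤ (Real.log X) ^ 2) (hMX : M * X ^ (1 / 10 : ℝ) ≤ X / 4)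
    (hMy : M * y ≤ X / 4) (hW0 : 0 ≤ W) (hWL : W < L + 1) (hfin : X / 2 + Real.exp (2 * y) + W ≤ X) :
    Run z X M W := by
  obtain ⟨T, S, b, hT0, hTy, hS, hsize, hU⟩ := hgood
  set Q : ℕ := ∏ p ∈ S, p with hQ
  have hQ0 : 0 < Q := prod_pos fun p hp => (hS p hp).1.pos
  set P : ℕ := T * Q with hPdef
  have hPpos : 0 < P := Nat.mul_pos hT0 hQ0
  have hPr : (0 : ℝ) < P := by exact_mod_cast hPpos
  have hPexp : (P : ℝ) ≤ Real.exp (2 * y) := by
    refine le_trans (le_of_eq ?_) hsize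
    rw [hPdef, hQ]
    push_cast
    rfl
  have hPX : 4 * (P : ℝ) ≤ X ^ (1 / 2 : ℝ) := by linarith
  obtain ⟨b0, hb0, hb0T, hb0S⟩ := exists_crt2 T hT0 S b
    (fun p hp => ⟨(hS p hp).1, (hS p hp).2.2.2.1, (hS p hp).2.2.2.2⟩)
  have hpP : ∀ p : ℕ, p.Prime → p ∣ P → (p : ℝ) ≤ y := by
    intro p hp hd
    rcases (hp.dvd_mul).1 hd with h | h
    · exact hTy p hp h
    · obtain ⟨q, hq, hpq⟩ := (hp.prime.dvd_finsetProd_iff _).1 h
      rw [(Nat.prime_dvd_prime_iff_eq hp (hS q hq).1).1 hpq]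
      exact (hS q hq).2.2.1
  have hndvdP : ∀ p : ℕ, p.Prime → (Real.log X) ^ 2 < p → ¬ p ∣ P := by
    intro p hp hpX h
    have := hpP p hp h
    linarith
  -- inverses
  have hinv : ∀ p : ℕ, ∃ i : ℤ, p.Prime → ¬ p ∣ P → (p : ℤ) ∣ P * i - 1 := by
    intro p
    by_cases h : p.Prime ∧ ¬ p ∣ P
    · obtain ⟨i, hi⟩ := inv_exists h.1 h.2
      exact ⟨i, fun _ _ => hi⟩
    · exact ⟨0, fun h1 h2 => absurd ⟨h1, h2⟩ h⟩
  choose ip hip using hinv
  set U : Finset ℕ := (Icc 1 L).filter (fun k => (∀ d : ℕ, d ∣ T → d ∣ k → (d : ℝ) ≤ M) ∧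
      ∀ p ∈ S, ¬ k ≡ b p [MOD p]) with hUdef
  have hz0 : (0 : ℝ) ≤ z := by positivity
  set a₁ : ℝ := ((z : ℝ) + X / 4) / P with ha₁
  set a₂ : ℝ := ((z : ℝ) + X / 2) / P with ha₂
  have hlt : a₁ ≤ a₂ := by
    apply div_le_div_of_nonneg_right _ hPr.le
    linarith
  have hN : X ^ (1 / 2 : ℝ) ≤ X / (4 * P) := by
    rw [le_div_iff₀ (by positivity)]
    calc X ^ (1 / 2 : ℝ) * (4 * P) ≤ X ^ (1 / 2 : ℝ) * X ^ (1 / 2 : ℝ) := by gcongr
      _ = X := by
        rw [← Real.rpow_add (by linarith)]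
        norm_num
  have hPne : (P : ℝ) ≠ 0 := hPr.ne'
  have e5 : a₂ - a₁ = X / (4 * P) := by
    rw [ha₁, ha₂, ← sub_div]
    field_simp
    ring
  obtain ⟨m, hmA, hm⟩ := hcov ∅ (by simpa using hlog) U (by simpa using hU)
    (fun p k => -((b0 : ℤ) + ((k : ℕ) : ℤ)) * ip p) (by
      intro p hp hp1 _ _ k l hkl hdvd
      have h1 := hip p hp (hndvdP p hp hp1)
      have h2 : (p : ℤ) ∣ ((l : ℕ) : ℤ) - ((k : ℕ) : ℤ) := by
        have h3 : (p : ℤ) ∣ (P : ℤ) * (-((b0 : ℤ) + ((k : ℕ) : ℤ)) * ip p -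
            -((b0 : ℤ) + ((l : ℕ) : ℤ)) * ip p) := hdvd.mul_left _
        have h4 : (p : ℤ) ∣ (((l : ℕ) : ℤ) - ((k : ℕ) : ℤ)) * ((P : ℤ) * ip p - 1) := h1.mul_left _
        have h5 := dvd_sub h3 h4
        have h6 : (P : ℤ) * (-((b0 : ℤ) + ((k : ℕ) : ℤ)) * ip p -
            -((b0 : ℤ) + ((l : ℕ) : ℤ)) * ip p) -
            (((l : ℕ) : ℤ) - ((k : ℕ) : ℤ)) * ((P : ℤ) * ip p - 1) =
            ((l : ℕ) : ℤ) - ((k : ℕ) : ℤ) := by ring
        rwa [h6] at h5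
      have hk := mem_Icc.1 (mem_filter.1 k.2).1
      have hl := mem_Icc.1 (mem_filter.1 l.2).1
      have hpL : L < p := by
        have : (L : ℝ) < p := lt_of_le_of_lt hL hp1
        exact_mod_cast this
      have h7 : ((l : ℕ) : ℤ) - ((k : ℕ) : ℤ) = 0 := by
        apply Int.eq_zero_of_abs_lt_dvd h2
        rw [abs_lt]
        constructor <;> omega
      apply hkl
      apply Subtype.ext
      omega)
    (Ioc ⌊a₁⌋ ⌊a₂⌋) (X / (4 * P)) 2 hN (by norm_num) hX10 (by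
      intro q hq hq4 _ r
      have hq0 : 0 < q := Nat.pos_of_ne_zero hq.ne_zero
      have hq1 : (1 : ℝ) ≤ q := by exact_mod_cast hq0
      have h1 := count_Ioc ⌊a₁⌋ ⌊a₂⌋ (Int.floor_le_floor hlt) q hq0 r
      have e1 := Int.floor_le a₁
      have e2 := Int.lt_floor_add_one a₁
      have e3 := Int.floor_le a₂
      have e4 := Int.lt_floor_add_one a₂
      have h2 : |((⌊a₂⌋ : ℝ) - ⌊a₁⌋) / q - X / (4 * P) / q| ≤ 1 := by
        rw [← sub_div, abs_div, abs_of_pos (by linarith : (0 : ℝ) < q), div_le_one (by linarith)]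
        refine le_trans ?_ hq1
        rw [abs_le]
        constructor <;> linarith
      calc _ = |((((Ioc ⌊a₁⌋ ⌊a₂⌋).filter
              (fun x => (q : ℤ) ∣ x - r)).card : ℕ) : ℝ) -
              ((⌊a₂⌋ : ℝ) - ⌊a₁⌋) / q +
              (((⌊a₂⌋ : ℝ) - ⌊a₁⌋) / q - X / (4 * P) / q)| := by
            congr 1
            ring
        _ ≤ _ := abs_add_le _ _
        _ ≤ 2 := by linarith)
  rw [mem_Ioc] at hmA
  have hm1 : a₁ < m := by
    have := Int.lt_floor_add_one a₁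
    have h2 : (⌊a₁⌋ : ℝ) + 1 ≤ m := by exact_mod_cast hmA.1
    linarith
  have hm2 : (m : ℝ) ≤ a₂ := by
    have := Int.floor_le a₂
    have h2 : (m : ℝ) ≤ (⌊a₂⌋ : ℝ) := by exact_mod_cast hmA.2
    linarith
  have hm0 : 0 < m := by
    have : (0 : ℝ) < m := lt_of_le_of_lt (by positivity) hm1
    exact_mod_cast this
  obtain ⟨m', rfl⟩ := Int.eq_ofNat_of_zero_le hm0.le
  have hPm1 : (z : ℝ) + X / 4 < P * m' := by
    have h1 : ((z : ℝ) + X / 4) / P < ((m' : ℕ) : ℝ) := by exact_mod_cast hm1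
    rw [div_lt_iff₀ (by positivity)] at h1
    linarith
  have hPm2 : (P * m' : ℝ) ≤ z + X / 2 := by
    have h1 : ((m' : ℕ) : ℝ) ≤ ((z : ℝ) + X / 2) / P := by exact_mod_cast hm2
    rw [le_div_iff₀ (by positivity)] at h1
    linarith
  have hxr : ((b0 + P * m' : ℕ) : ℝ) = b0 + P * m' := by push_cast; ring
  have hb0r : (0 : ℝ) ≤ b0 := by positivity
  have hb0P : (b0 : ℝ) ≤ P := by exact_mod_cast hb0.le
  refine ⟨b0 + P * m', ?_, by rw [hxr]; linarith, ?_⟩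
  · have : (z : ℝ) < ((b0 + P * m' : ℕ) : ℝ) := by rw [hxr]; linarith
    exact_mod_cast this
  intro k' hk' hkW q hq hqk
  obtain ⟨k, rfl⟩ : ∃ k, k' = b0 + P * m' + k := ⟨_, (Nat.add_sub_of_le hk'.le).symm⟩
  have hk1 : 1 ≤ k := by omega
  have hkL : k ≤ L := by
    have h1 : (k : ℝ) < L + 1 := by
      push_cast at hkW
      linarith
    have h2 : k < L + 1 := by exact_mod_cast h1
    omega
  by_contra hcon
  push Not at hcon
  have hkr : ((b0 + P * m' + k : ℕ) : ℝ) = b0 + P * m' + k := by push_cast; ring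
  have hk0 : (0 : ℝ) ≤ k := by positivity
  have hq0 : (0 : ℝ) < q := by exact_mod_cast hq.pos
  have hbig : X / 4 < M * q := by
    rw [hkr] at hcon
    linarith
  have hM0 : 0 < M := by linarith
  have hqX : X ^ (1 / 10 : ℝ) < q := lt_of_mul_lt_mul_left (lt_of_le_of_lt hMX hbig) hM0.le
  have hqy : y < q := lt_of_mul_lt_mul_left (lt_of_le_of_lt hMy hbig) hM0.le
  obtain ⟨m, hmq⟩ := hqk
  have hm0' : 0 < m := by
    rcases Nat.eq_zero_or_pos m with h | h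
    · rw [h] at hmq; omega
    · exact h
  have hmM : (m : ℝ) ≤ M := by
    rw [hmq] at hcon
    push_cast at hcon
    have : (q : ℝ) * m ≤ q * M := by linarith
    exact le_of_mul_le_mul_left this hq0
  -- a divisor coprime to `q` is at most `M`
  have hkey : ∀ d : ℕ, Nat.Coprime d q → d ∣ b0 + P * m' + k → (d : ℝ) ≤ M := by
    intro d hd hdk
    rw [hmq] at hdk
    have h1 : d ∣ m := hd.dvd_of_dvd_mul_left hdk
    have h2 : d ≤ m := Nat.le_of_dvd hm0' h1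
    have h3 : (d : ℝ) ≤ m := by exact_mod_cast h2
    linarith
  have hcop : ∀ p : ℕ, p.Prime → (p : ℝ) < q → Nat.Coprime p q := by
    intro p hp hpq
    refine (Nat.coprime_primes hp hq).2 ?_
    rintro rfl
    exact lt_irrefl _ hpq
  by_cases hkU : k ∈ U
  · obtain ⟨p, hp, hp1, hp2, -, hp3⟩ := hm ⟨k, hkU⟩
    have h1 := hip p hp (hndvdP p hp hp1)
    have h2 : (p : ℤ) ∣ ((b0 + P * m' + k : ℕ) : ℤ) := by
      have h3 := hp3.mul_left (P : ℤ)
      have h4 := h1.mul_left ((b0 : ℤ) + (k : ℤ))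
      have h5 := dvd_sub h3 h4
      have h6 : (P : ℤ) * ((m' : ℤ) - -((b0 : ℤ) + (k : ℤ)) * ip p) -
          ((b0 : ℤ) + (k : ℤ)) * ((P : ℤ) * ip p - 1) = ((b0 + P * m' + k : ℕ) : ℤ) := by
        push_cast
        ring
      rwa [← h6]
    have h3 : p ∣ b0 + P * m' + k := by exact_mod_cast h2
    have h4 := hkey p (hcop p hp (lt_of_le_of_lt hp2 hqX)) h3
    linarith
  · have hkU' : ¬ ((∀ d : ℕ, d ∣ T → d ∣ k → (d : ℝ) ≤ M) ∧ ∀ p ∈ S, ¬ k ≡ b p [MOD p]) :=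
      fun h => hkU (mem_filter.2 ⟨mem_Icc.2 ⟨hk1, hkL⟩, h⟩)
    rw [not_and_or] at hkU'
    rcases hkU' with h | h
    · push Not at h
      obtain ⟨d, hdT, hdk, hdM⟩ := h
      have hdn : d ∣ b0 + P * m' + k := by
        have h1 : d ∣ b0 := hdT.trans hb0T
        have h2 : d ∣ P * m' := (hdT.trans (Dvd.intro _ rfl)).mul_right _
        exact dvd_add (dvd_add h1 h2) hdk
      have hdq : Nat.Coprime d q := by
        refine ((Nat.Prime.coprime_iff_not_dvd hq).2 ?_).symm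
        intro hqd
        have := hTy q hq (hqd.trans hdT)
        linarith
      have := hkey d hdq hdn
      linarith
    · push Not at h
      obtain ⟨p, hpS, hkp⟩ := h
      have hpp := (hS p hpS).1
      have hpy := (hS p hpS).2.2.1
      have hpn : p ∣ b0 + P * m' + k := by
        have h1 : b0 + k ≡ b0 + b p [MOD p] := hkp.add_left _
        have h2 : p ∣ b0 + k := (Nat.modEq_zero_iff_dvd).1
          (h1.trans ((Nat.modEq_zero_iff_dvd).2 (hb0S p hpS)))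
        have h3 : p ∣ P * m' := by
          apply Dvd.dvd.mul_right
          exact (dvd_prod_of_mem (fun p => p) hpS).trans (Dvd.intro_left T rfl)
        have h4 : b0 + P * m' + k = (b0 + k) + P * m' := by ring
        rw [h4]
        exact dvd_add h2 h3
      have h5 := hkey p (hcop p hpp (lt_of_le_of_lt hpy hqy)) hpn
      linarith [(hS p hpS).2.1]

end Pool.Agent.Y824
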