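import Mathlib
import Pool.Agent.H398R2.RK.Surv2

set_option autoImplicit false

/-! # Counting lemmas for runs of integers with small largest prime factor (helper824) -/

namespace Pool.Agent.Y824

open Finset Pool.Agent.H398R2.RK

open scoped Classical

/-- the integers up to `L` that are `m p` with `p > y` prime and `m ≤ H` -/
theorem card_mp (L : ℕ) (y H : ℝ) (hy : 2 ≤ y) (hH : 1 ≤ H) :
    (((Icc 1 L).filter (fun k => ∃ m p : ℕ, p.Prime ∧ y < p ∧ k = m * p ∧ (m : ℝ) ≤ H)).card : ℝ)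
      ≤ 10 * L / Real.log y * (1 + Real.log H) := by
  have hly : 0 < Real.log y := Real.log_pos (by linarith)
  set G : ℕ → Finset ℕ := fun m => (Icc 1 (L / m)).filter (fun p => p.Prime ∧ y < p) with hG
  have hsub : (Icc 1 L).filter (fun k => ∃ m p : ℕ, p.Prime ∧ y < p ∧ k = m * p ∧ (m : ℝ) ≤ H) ⊆
      (Icc 1 ⌊H⌋₊).biUnion (fun m => (G m).image (fun p => m * p)) := by
    intro k hk
    rw [mem_filter, mem_Icc] at hk
    obtain ⟨⟨hk1, hkL⟩, m, p, hp, hyp, rfl, hm⟩ := hk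
    have hm0 : 0 < m := by
      rcases Nat.eq_zero_or_pos m with h | h
      · rw [h] at hk1; simp at hk1
      · exact h
    rw [mem_biUnion]
    refine ⟨m, mem_Icc.2 ⟨hm0, Nat.le_floor hm⟩, mem_image.2 ⟨p, ?_, rfl⟩⟩
    rw [hG, mem_filter, mem_Icc]
    refine ⟨⟨hp.pos, ?_⟩, hp, hyp⟩
    rw [Nat.le_div_iff_mul_le hm0]
    linarith [mul_comm m p]
  have hGm : ∀ m ∈ Icc 1 ⌊H⌋₊, ((G m).card : ℝ) ≤ 10 * L / Real.log y * ((m : ℝ)⁻¹) := by
    intro m hm
    have hm0 : 0 < m := (mem_Icc.1 hm).1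
    have hm0' : (0 : ℝ) < m := by exact_mod_cast hm0
    have hR : 10 * (L : ℝ) / Real.log y * ((m : ℝ)⁻¹) = 10 * ((L : ℝ) / m) / Real.log y := by
      field_simp
    rw [hR]
    have hdiv : (((L / m : ℕ)) : ℝ) ≤ (L : ℝ) / m := Nat.cast_div_le
    by_cases h : ((L / m : ℕ) : ℝ) ≤ y
    · have : G m = ∅ := by
        rw [hG]
        apply filter_eq_empty_iff.2
        intro p hp h2
        have h3 : (p : ℝ) ≤ ((L / m : ℕ) : ℝ) := by exact_mod_cast (mem_Icc.1 hp).2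
        linarith [h2.2]
      rw [this, card_empty]
      push_cast
      positivity
    · push Not at h
      have h2 : 2 ≤ L / m := by
        have : (2 : ℝ) ≤ ((L / m : ℕ) : ℝ) := by linarith
        exact_mod_cast this
      have h3 : (G m).card ≤ ((Icc 1 (L / m)).filter Nat.Prime).card := by
        apply card_le_card
        intro p hp
        rw [hG, mem_filter] at hp
        exact mem_filter.2 ⟨hp.1, hp.2.1⟩
      have h4 := primes_le (L / m) h2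
      have h5 : Real.log y ≤ Real.log ((L / m : ℕ) : ℝ) := Real.log_le_log (by linarith) h.le
      calc ((G m).card : ℝ) ≤ (((Icc 1 (L / m)).filter Nat.Prime).card : ℝ) := by exact_mod_cast h3
        _ ≤ 10 * ((L / m : ℕ) : ℝ) / Real.log ((L / m : ℕ) : ℝ) := h4
        _ ≤ 10 * ((L : ℝ) / m) / Real.log y := by gcongr
  have hfl : 1 ≤ ⌊H⌋₊ := Nat.le_floor (by simpa using hH)
  have hhar : ∑ m ∈ Icc 1 ⌊H⌋₊, ((m : ℝ)⁻¹) ≤ 1 + Real.log H := by
    have h1 := harmonic_le_one_add_log ⌊H⌋₊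
    have h2 : ((harmonic ⌊H⌋₊ : ℚ) : ℝ) = ∑ m ∈ Icc 1 ⌊H⌋₊, ((m : ℝ)⁻¹) := by
      rw [harmonic_eq_sum_Icc]
      push_cast
      rfl
    rw [h2] at h1
    have h3 : Real.log (⌊H⌋₊ : ℝ) ≤ Real.log H :=
      Real.log_le_log (by exact_mod_cast hfl) (Nat.floor_le (by linarith))
    linarith
  calc _ ≤ ((((Icc 1 ⌊H⌋₊).biUnion (fun m => (G m).image (fun p => m * p))).card : ℕ) : ℝ) := by
        exact_mod_cast card_le_card hsub
    _ ≤ ((∑ m ∈ Icc 1 ⌊H⌋₊, ((G m).image (fun p => m * p)).card : ℕ) : ℝ) := by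
        exact_mod_cast card_biUnion_le
    _ ≤ ((∑ m ∈ Icc 1 ⌊H⌋₊, (G m).card : ℕ) : ℝ) := by
        exact_mod_cast sum_le_sum fun m _ => card_image_le
    _ = ∑ m ∈ Icc 1 ⌊H⌋₊, ((G m).card : ℝ) := by push_cast; rfl
    _ ≤ ∑ m ∈ Icc 1 ⌊H⌋₊, 10 * L / Real.log y * ((m : ℝ)⁻¹) := sum_le_sum hGm
    _ = 10 * L / Real.log y * ∑ m ∈ Icc 1 ⌊H⌋₊, ((m : ℝ)⁻¹) := by rw [mul_sum]
    _ ≤ _ := by gcongr

/-- the integers up to `L` all of whose squarefree divisors are at most `M` -/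
theorem card_sq (L : ℕ) (y M : ℝ) (hy : 3 ≤ y) (hyL : y ≤ L) (hM : 1 ≤ M)
    (h : 128 * M * (Real.log y) ^ 3 ≤ y) :
    (((Icc 1 L).filter (fun k => ∀ d : ℕ, Squarefree d → d ∣ k → (d : ℝ) ≤ M)).card : ℝ)
      ≤ L / Real.log y := by
  have hly : 1 ≤ Real.log y := by
    have h1 : Real.exp 1 ≤ y := by have := Real.exp_one_lt_d9; linarith
    rw [← Real.log_exp 1]
    exact Real.log_le_log (Real.exp_pos _) h1
  set l := Real.log y with hl
  have hL0 : (0 : ℝ) < L := by linarith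
  set K : ℕ := ⌊(L : ℝ) / (2 * l)⌋₊ with hK
  set k₀ : ℕ := ⌊8 * l⌋₊ with hk₀
  have hsub : (Icc 1 L).filter (fun k => ∀ d : ℕ, Squarefree d → d ∣ k → (d : ℝ) ≤ M) ⊆
      (Icc 1 K) ∪ (Ioo k₀ (L + 1)).biUnion (fun b => (Ioc 0 L).filter (fun k => b ^ 2 ∣ k)) := by
    intro k hk
    rw [mem_filter, mem_Icc] at hk
    obtain ⟨⟨hk1, hkL⟩, hd⟩ := hk
    rw [mem_union]
    by_cases hkK : (k : ℝ) ≤ (L : ℝ) / (2 * l)
    · left
      rw [mem_Icc]
      exact ⟨hk1, Nat.le_floor hkK⟩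
    · right
      push Not at hkK
      obtain ⟨a, b, hab, ha⟩ := Nat.sq_mul_squarefree k
      have haM : (a : ℝ) ≤ M := hd a ha ⟨b ^ 2, by rw [← hab]; ring⟩
      have hb0 : 0 < b := by
        rcases Nat.eq_zero_or_pos b with hb | hb
        · rw [hb] at hab; simp at hab; omega
        · exact hb
      have ha0 : 0 < a := Nat.pos_of_ne_zero ha.ne_zero
      have hkr : (k : ℝ) = (b : ℝ) ^ 2 * a := by rw [← hab]; push_cast; ring
      have h1 : (L : ℝ) / (2 * l) < (b : ℝ) ^ 2 * M := by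
        calc (L : ℝ) / (2 * l) < k := hkK
          _ = (b : ℝ) ^ 2 * a := hkr
          _ ≤ (b : ℝ) ^ 2 * M := by gcongr
      have h2 : 64 * M * l ^ 2 ≤ (L : ℝ) / (2 * l) := by
        rw [le_div_iff₀ (by positivity)]
        calc 64 * M * l ^ 2 * (2 * l) = 128 * M * l ^ 3 := by ring
          _ ≤ y := h
          _ ≤ L := hyL
      have h3 : (8 * l) ^ 2 < (b : ℝ) ^ 2 := by
        have : M * (8 * l) ^ 2 < M * (b : ℝ) ^ 2 := by nlinarith
        exact lt_of_mul_lt_mul_left this (by linarith)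
      have h4 : 8 * l < b := lt_of_pow_lt_pow_left₀ 2 (by positivity) h3
      rw [mem_biUnion]
      refine ⟨b, ?_, ?_⟩
      · rw [mem_Ioo]
        refine ⟨?_, ?_⟩
        · rw [hk₀]
          exact (Nat.floor_lt (by positivity)).2 h4
        · have h5 : b ≤ b ^ 2 * a := by nlinarith [Nat.one_le_iff_ne_zero.2 hb0.ne']
          omega
      · rw [mem_filter, mem_Ioc]
        exact ⟨⟨hk1, hkL⟩, ⟨a, hab.symm⟩⟩
  have hcK : ((Icc 1 K).card : ℝ) ≤ (L : ℝ) / (2 * l) := by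
    rw [Nat.card_Icc]
    simp only [Nat.add_sub_cancel]
    exact Nat.floor_le (by positivity)
  have hcB : (((Ioo k₀ (L + 1)).biUnion
      (fun b => (Ioc 0 L).filter (fun k => b ^ 2 ∣ k))).card : ℝ) ≤ (L : ℝ) / (2 * l) := by
    calc (((Ioo k₀ (L + 1)).biUnion
        (fun b => (Ioc 0 L).filter (fun k => b ^ 2 ∣ k))).card : ℝ)
        ≤ ((∑ b ∈ Ioo k₀ (L + 1), ((Ioc 0 L).filter (fun k => b ^ 2 ∣ k)).card : ℕ) : ℝ) := by
          exact_mod_cast card_biUnion_le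
      _ = ∑ b ∈ Ioo k₀ (L + 1), (((Ioc 0 L).filter (fun k => b ^ 2 ∣ k)).card : ℝ) := by
          push_cast; rfl
      _ ≤ ∑ b ∈ Ioo k₀ (L + 1), (L : ℝ) * ((b : ℝ) ^ 2)⁻¹ := by
          apply sum_le_sum
          intro b _
          rw [Nat.Ioc_filter_dvd_card_eq_div]
          calc ((L / b ^ 2 : ℕ) : ℝ) ≤ (L : ℝ) / ((b ^ 2 : ℕ) : ℝ) := Nat.cast_div_le
            _ = (L : ℝ) * ((b : ℝ) ^ 2)⁻¹ := by push_cast; rw [div_eq_mul_inv]
      _ = (L : ℝ) * ∑ b ∈ Ioo k₀ (L + 1), ((b : ℝ) ^ 2)⁻¹ := by rw [mul_sum]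
      _ ≤ (L : ℝ) * (2 / (k₀ + 1)) := by
          gcongr
          exact sum_Ioo_inv_sq_le k₀ (L + 1)
      _ ≤ (L : ℝ) * (2 / (8 * l)) := by
          gcongr
          rw [hk₀]
          exact (Nat.lt_floor_add_one _).le
      _ ≤ (L : ℝ) / (2 * l) := by
          have : (L : ℝ) * (2 / (8 * l)) = (L : ℝ) / (2 * l) / 2 := by field_simp; norm_num
          rw [this]
          have : 0 ≤ (L : ℝ) / (2 * l) := by positivity
          linarith
  calc _ ≤ ((((Icc 1 K) ∪ (Ioo k₀ (L + 1)).biUnion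
        (fun b => (Ioc 0 L).filter (fun k => b ^ 2 ∣ k))).card : ℕ) : ℝ) := by
        exact_mod_cast card_le_card hsub
    _ ≤ (((Icc 1 K).card : ℕ) : ℝ) + (((Ioo k₀ (L + 1)).biUnion
        (fun b => (Ioc 0 L).filter (fun k => b ^ 2 ∣ k))).card : ℝ) := by
        exact_mod_cast card_union_le _ _
    _ ≤ (L : ℝ) / (2 * l) + (L : ℝ) / (2 * l) := by linarith
    _ = _ := by field_simp; norm_num

end Pool.Agent.Y824
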