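import Pool.Agent.Y824.RunArith
import Pool.Agent.Y824.CutMain

set_option autoImplicit false

/-! # Runs of integers with small largest prime factor: large cofactors (helper824) -/

namespace Pool.Agent.Y824

open Finset Pool.Agent.H256R2.SC.LG

open scoped Classical

theorem run_cut : ∃ c : ℝ, 0 < c ∧ ∃ R₀ : ℝ, 1000 ≤ R₀ ∧ ∀ X y₁ : ℝ, 1 < X → 10 ≤ y₁ →
    (Real.log X) ^ 2 ≤ y₁ → R₀ * Real.log y₁ ≤ Real.log X → ∀ (z : ℕ) (M : ℝ), 1 ≤ M → M ≤ y₁ →
    ∀ W : ℝ, 0 ≤ W → W ≤ c * (Real.log X / Real.log y₁ * Real.log (Real.log X / Real.log y₁)) →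
    W ≤ (Real.log X) ^ 2 → Run z X M W := by
  obtain ⟨c, hc, R₀, hR₀, hcov⟩ := cov_cut
  refine ⟨c, hc, R₀, hR₀, fun X y₁ hX1 hy10 hy hRy z M hM1 hM W hW0 hWc hWl => ?_⟩
  have hX0 : 0 < X := by linarith
  have hy0 : 0 < y₁ := by linarith
  have hly : 2 ≤ Real.log y₁ := by
    have h1 : Real.exp 2 ≤ y₁ := by
      have h2 : Real.exp 2 = Real.exp 1 * Real.exp 1 := by rw [← Real.exp_add]; norm_num
      have h3 := Real.exp_one_lt_d9
      have h4 := Real.exp_pos 1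
      rw [h2]
      nlinarith
    rw [← Real.log_exp 2]
    exact Real.log_le_log (Real.exp_pos _) h1
  set l := Real.log X with hl
  have hlX : 2000 ≤ l := by nlinarith
  have hXexp : X = Real.exp l := (Real.exp_log hX0).symm
  have hroot : ∀ a : ℝ, X ^ a = Real.exp (l * a) := fun a => Real.rpow_def_of_pos hX0 a
  have e2 : (4 : ℝ) ≤ Real.exp 2 := by
    have := Real.add_one_le_exp (1 : ℝ)
    calc (4 : ℝ) = 2 * 2 := by norm_num
      _ ≤ Real.exp 1 * Real.exp 1 := by gcongr <;> linarith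
      _ = Real.exp 2 := by rw [← Real.exp_add]; norm_num
  have hexp4 : ∀ a b : ℝ, a + 2 ≤ b → 4 * Real.exp a ≤ Real.exp b := by
    intro a b hab
    calc 4 * Real.exp a ≤ Real.exp 2 * Real.exp a := by gcongr
      _ = Real.exp (2 + a) := by rw [← Real.exp_add]
      _ ≤ Real.exp b := Real.exp_le_exp.2 (by linarith)
  have hy1000 : y₁ ≤ Real.exp (l / 1000) := by
    rw [← Real.log_le_iff_le_exp hy0]
    have : 1000 * Real.log y₁ ≤ R₀ * Real.log y₁ := by
      apply mul_le_mul_of_nonneg_right hR₀ (by linarith)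
    linarith
  have hN : X ^ (1 / 2 : ℝ) ≤ X / 4 := by
    rw [hroot]
    have h1 := hexp4 (l * (1 / 2)) l (by linarith)
    rw [← hXexp] at h1
    linarith
  have hX10 : 2 ≤ X ^ (1 / 10 : ℝ) := by
    rw [hroot]
    have h1 : Real.exp 2 ≤ Real.exp (l * (1 / 10)) := Real.exp_le_exp.2 (by linarith)
    linarith
  have hMX : M * X ^ (1 / 10 : ℝ) ≤ X / 4 := by
    rw [hroot]
    have h1 := hexp4 (l / 1000 + l * (1 / 10)) l (by linarith)
    rw [← hXexp] at h1
    have h2 : M * Real.exp (l * (1 / 10)) ≤ Real.exp (l / 1000 + l * (1 / 10)) := by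
      rw [Real.exp_add]
      have := hM.trans hy1000
      gcongr
    linarith
  have hWX : W ≤ X / 4 := by
    have h1 := hexp4 (l / 1000) l (by linarith)
    rw [← hXexp] at h1
    linarith
  set L : ℕ := ⌊W⌋₊ with hL
  have hLW : (L : ℝ) ≤ W := Nat.floor_le hW0
  have hz0 : (0 : ℝ) ≤ z := by positivity
  obtain ⟨x, hxA, hx⟩ := hcov X y₁ hX1 hy10 hy hRy (Icc 1 L)
    (by
      rw [Fintype.card_coe, Nat.card_Icc, Nat.add_sub_cancel]
      exact hLW.trans hWc)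
    (fun _ k => -((k : ℕ) : ℤ))
    (by
      intro p hp hp1 _ k l' hkl hdvd
      have h2 : (p : ℤ) ∣ ((l' : ℕ) : ℤ) - ((k : ℕ) : ℤ) := by
        have : -((k : ℕ) : ℤ) - -((l' : ℕ) : ℤ) = ((l' : ℕ) : ℤ) - ((k : ℕ) : ℤ) := by ring
        rwa [this] at hdvd
      have hk := mem_Icc.1 k.2
      have hl' := mem_Icc.1 l'.2
      have hpL : L < p := by
        have : (L : ℝ) < p := by linarith
        exact_mod_cast this
      have h7 : ((l' : ℕ) : ℤ) - ((k : ℕ) : ℤ) = 0 := by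
        apply Int.eq_zero_of_abs_lt_dvd h2
        rw [abs_lt]
        constructor <;> omega
      apply hkl
      apply Subtype.ext
      omega)
    (Ioc ⌊(z : ℝ) + X / 4⌋ ⌊(z : ℝ) + X / 2⌋) (X / 4) 2 hN (by norm_num) hX10
    (by
      intro q hq hq4 _ r
      have hq0 : 0 < q := Nat.pos_of_ne_zero hq.ne_zero
      have hq1 : (1 : ℝ) ≤ q := by exact_mod_cast hq0
      have h1 := count_Ioc ⌊(z : ℝ) + X / 4⌋ ⌊(z : ℝ) + X / 2⌋
        (Int.floor_le_floor (by linarith)) q hq0 r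
      have e1 := Int.floor_le ((z : ℝ) + X / 4)
      have e2 := Int.lt_floor_add_one ((z : ℝ) + X / 4)
      have e3 := Int.floor_le ((z : ℝ) + X / 2)
      have e4 := Int.lt_floor_add_one ((z : ℝ) + X / 2)
      have h2 : |((⌊(z : ℝ) + X / 2⌋ : ℝ) - ⌊(z : ℝ) + X / 4⌋) / q - X / 4 / q| ≤ 1 := by
        rw [← sub_div, abs_div, abs_of_pos (by linarith : (0 : ℝ) < q), div_le_one (by linarith)]
        refine le_trans ?_ hq1
        rw [abs_le]
        constructor <;> linarith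
      calc _ = |((((Ioc ⌊(z : ℝ) + X / 4⌋ ⌊(z : ℝ) + X / 2⌋).filter
              (fun x => (q : ℤ) ∣ x - r)).card : ℕ) : ℝ) -
              ((⌊(z : ℝ) + X / 2⌋ : ℝ) - ⌊(z : ℝ) + X / 4⌋) / q +
              (((⌊(z : ℝ) + X / 2⌋ : ℝ) - ⌊(z : ℝ) + X / 4⌋) / q - X / 4 / q)| := by
            congr 1
            ring
        _ ≤ _ := abs_add_le _ _
        _ ≤ 2 := by linarith)
  rw [mem_Ioc] at hxA
  have hx1 : (z : ℝ) + X / 4 < x := by
    have := Int.lt_floor_add_one ((z : ℝ) + X / 4)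
    have h2 : (⌊(z : ℝ) + X / 4⌋ : ℝ) + 1 ≤ x := by exact_mod_cast hxA.1
    linarith
  have hx2 : (x : ℝ) ≤ z + X / 2 := by
    have := Int.floor_le ((z : ℝ) + X / 2)
    have h2 : (x : ℝ) ≤ (⌊(z : ℝ) + X / 2⌋ : ℝ) := by exact_mod_cast hxA.2
    linarith
  have hx0 : 0 < x := by
    have : (0 : ℝ) < x := by linarith
    exact_mod_cast this
  obtain ⟨n, rfl⟩ := Int.eq_ofNat_of_zero_le hx0.le
  have hn1 : (z : ℝ) + X / 4 < (n : ℝ) := by exact_mod_cast hx1
  have hn2 : (n : ℝ) ≤ z + X / 2 := by exact_mod_cast hx2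
  refine ⟨n, ?_, by linarith, ?_⟩
  · have : (z : ℝ) < (n : ℝ) := by linarith
    exact_mod_cast this
  intro k' hk' hkW q hq hqk
  obtain ⟨k, rfl⟩ : ∃ k, k' = n + k := ⟨_, (Nat.add_sub_of_le hk'.le).symm⟩
  have hk1 : 1 ≤ k := by omega
  have hkL : k ≤ L := by
    apply Nat.le_floor
    push_cast at hkW
    linarith
  by_contra hcon
  push Not at hcon
  have hkr : ((n + k : ℕ) : ℝ) = n + k := by push_cast; ring
  have hk0 : (0 : ℝ) ≤ k := by positivity
  have hq0 : (0 : ℝ) < q := by exact_mod_cast hq.pos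
  have hbig : X / 4 < M * q := by
    rw [hkr] at hcon
    linarith
  have hM0 : 0 < M := by linarith
  have hqX : X ^ (1 / 10 : ℝ) < q := lt_of_mul_lt_mul_left (lt_of_le_of_lt hMX hbig) hM0.le
  obtain ⟨m, hmq⟩ := hqk
  have hm0' : 0 < m := by
    rcases Nat.eq_zero_or_pos m with h | h
    · rw [h] at hmq; omega
    · exact h
  have hmM : (m : ℝ) ≤ M := by
    rw [hmq] at hcon
    push_cast at hcon
    have : (q : ℝ) * m ≤ q * M := by linarith
    exact le_of_mul_le_mul_left this hq0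
  obtain ⟨p, hp, hp1, hp2, hp3⟩ := hx ⟨k, mem_Icc.2 ⟨hk1, hkL⟩⟩
  have h3 : p ∣ n + k := by
    have h4 : (p : ℤ) ∣ ((n + k : ℕ) : ℤ) := by
      have h5 : ((n : ℕ) : ℤ) - -((k : ℕ) : ℤ) = ((n + k : ℕ) : ℤ) := by push_cast; ring
      rw [← h5]
      exact hp3
    exact_mod_cast h4
  rw [hmq] at h3
  have hpq : Nat.Coprime p q := by
    refine (Nat.coprime_primes hp hq).2 ?_
    rintro rfl
    linarith
  have h4 : p ∣ m := hpq.dvd_of_dvd_mul_left h3
  have h5 : p ≤ m := Nat.le_of_dvd hm0' h4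
  have h6 : (p : ℝ) ≤ m := by exact_mod_cast h5
  linarith

end Pool.Agent.Y824
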