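import Pool.Agent.Y824.RunCut
import Pool.Agent.H256R2.SC.V

set_option autoImplicit false
set_option maxHeartbeats 4000000

/-! # Runs of integers with small largest prime factor: choice of the parameters (helper824) -/

namespace Pool.Agent.Y824

open Finset Pool.Agent.H256R2.SC Pool.Agent.H256R2.SC.LG

open scoped Classical

theorem run_common {c X M W : ℝ} (hl : 6000 ≤ Real.log X) (hX1 : 1 ≤ X) (hcov : CovAt c X)
    (hgood : Good (Real.log X / 10) ⌊W⌋₊ M (c * Real.log X)) (z : ℕ) (hM1 : 1 ≤ M)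
    (hM : M ≤ Real.log X) (hW0 : 0 ≤ W) (hW : W ≤ (Real.log X) ^ 2) : Run z X M W := by
  have hX0 : 0 < X := by linarith
  set l := Real.log X with hldef
  have hXexp : X = Real.exp l := (Real.exp_log hX0).symm
  have hroot : ∀ a : ℝ, X ^ a = Real.exp (l * a) := fun a => Real.rpow_def_of_pos hX0 a
  have e2 : (4 : ℝ) ≤ Real.exp 2 := by
    have := Real.add_one_le_exp (1 : ℝ)
    calc (4 : ℝ) = 2 * 2 := by norm_num
      _ ≤ Real.exp 1 * Real.exp 1 := by gcongr <;> linarith
      _ = Real.exp 2 := by rw [← Real.exp_add]; norm_num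
  have hexp4 : ∀ a b : ℝ, a + 2 ≤ b → 4 * Real.exp a ≤ Real.exp b := by
    intro a b hab
    calc 4 * Real.exp a ≤ Real.exp 2 * Real.exp a := by gcongr
      _ = Real.exp (2 + a) := by rw [← Real.exp_add]
      _ ≤ Real.exp b := Real.exp_le_exp.2 (by linarith)
  -- `l² ≤ exp (l / 10)`
  have hquad : l ^ 2 ≤ Real.exp (l / 10) := by
    have h7 := Real.pow_div_factorial_le_exp (l / 10) (by linarith) 3
    norm_num [Nat.factorial] at h7
    have h8 : l ^ 2 ≤ (l / 10) ^ 3 / 6 := by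
      have e1 : (l / 10) ^ 3 / 6 = l ^ 2 * (l / 6000) := by ring
      rw [e1]
      apply le_mul_of_one_le_right (by positivity)
      rw [le_div_iff₀ (by norm_num)]
      linarith
    linarith
  have hl_sq : l ≤ l ^ 2 := by
    rw [sq]
    exact le_mul_of_one_le_right (by linarith) (by linarith)
  have hlexp : l ≤ Real.exp (l / 10) := hl_sq.trans hquad
  have b1 : 4 * Real.exp (2 * (l / 10)) ≤ X ^ (1 / 2 : ℝ) := by
    rw [hroot]
    exact hexp4 _ _ (by linarith)
  have b2 : 2 ≤ X ^ (1 / 10 : ℝ) := by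
    rw [hroot]
    have h1 : Real.exp 2 ≤ Real.exp (l * (1 / 10)) := Real.exp_le_exp.2 (by linarith)
    linarith
  have b3 : M * X ^ (1 / 10 : ℝ) ≤ X / 4 := by
    rw [hroot]
    have h1 := hexp4 (l / 10 + l * (1 / 10)) l (by linarith)
    rw [← hXexp] at h1
    have h2 : M * Real.exp (l * (1 / 10)) ≤ Real.exp (l / 10 + l * (1 / 10)) := by
      rw [Real.exp_add]
      have := hM.trans hlexp
      gcongr
    linarith
  have b4 : M * (l / 10) ≤ X / 4 := by
    have h1 := hexp4 (l / 10) l (by linarith)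
    rw [← hXexp] at h1
    have h2 : M * (l / 10) ≤ l ^ 2 := by
      have h3 : M * (l / 10) ≤ l * (l / 10) := by gcongr
      have h4 : l * (l / 10) = l ^ 2 / 10 := by ring
      have h5 := sq_nonneg l
      linarith
    linarith
  have b5 : X / 2 + Real.exp (2 * (l / 10)) + W ≤ X := by
    have h1 := hexp4 (l / 10) l (by linarith)
    have h2 := hexp4 (2 * (l / 10)) l (by linarith)
    rw [← hXexp] at h1 h2
    linarith
  refine run_good hcov hgood z hX1 (by linarith) ((Nat.floor_le hW0).trans hW) (by linarith)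
    b1 b2 hM1 (hM.trans hl_sq) b3 b4 hW0 (Nat.lt_floor_add_one W) b5

theorem Good.mono {y : ℝ} {L : ℕ} {M K K' : ℝ} (h : Good y L M K) (hK : K ≤ K') :
    Good y L M K' := by
  obtain ⟨T, S, b, h1, h2, h3, h4, h5⟩ := h
  exact ⟨T, S, b, h1, h2, h3, h4, h5.trans hK⟩

/-- the iterated logarithms of `log X / 10` -/
theorem yfacts {l1 : ℝ} (m1 : 100 ≤ l1) (m2 : 100 ≤ Real.log l1)
    (m3 : 100 ≤ Real.log (Real.log l1)) (m4 : 100 ≤ Real.log (Real.log (Real.log l1))) :
    Real.log l1 / 2 ≤ Real.log (l1 / 10) ∧ Real.log (l1 / 10) ≤ Real.log l1 ∧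
    Real.log (Real.log l1) / 2 ≤ Real.log (Real.log (l1 / 10)) ∧
    Real.log (Real.log (l1 / 10)) ≤ Real.log (Real.log l1) ∧
    Real.log (Real.log (Real.log l1)) / 2 ≤ Real.log (Real.log (Real.log (l1 / 10))) ∧
    Real.log (Real.log (Real.log (l1 / 10))) ≤ Real.log (Real.log (Real.log l1)) := by
  have hlog10 := log10_lt
  have y1 : Real.log l1 / 2 ≤ Real.log (l1 / 10) := half_log le_rfl (by linarith) (by linarith)
  have y2 : Real.log (Real.log l1) / 2 ≤ Real.log (Real.log (l1 / 10)) :=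
    half_log (by linarith) (by linarith) (by linarith)
  have y3 : Real.log (Real.log (Real.log l1)) / 2 ≤ Real.log (Real.log (Real.log (l1 / 10))) :=
    half_log (by linarith) (by linarith) (by linarith)
  have z1 : Real.log (l1 / 10) ≤ Real.log l1 := Real.log_le_log (by linarith) (by linarith)
  have z2 : Real.log (Real.log (l1 / 10)) ≤ Real.log (Real.log l1) :=
    Real.log_le_log (by linarith) z1
  have z3 : Real.log (Real.log (Real.log (l1 / 10))) ≤ Real.log (Real.log (Real.log l1)) :=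
    Real.log_le_log (by linarith) z2
  exact ⟨y1, z1, y2, z2, y3, z3⟩

theorem part_one : ∃ c : ℝ, 0 < c ∧ ∃ X₀ : ℝ, ∀ X : ℝ, X₀ ≤ X → ∀ (z : ℕ) (M : ℝ), 1 ≤ M →
    Real.log M ≤ Real.log (Real.log X / 10) * Real.log (Real.log (Real.log (Real.log X / 10))) /
      (10 * Real.log (Real.log (Real.log X / 10))) →
    Run z X M (c * (ff X / (1 + Real.log M))) := by
  have hcovS : CovStmt := covering
  obtain ⟨c, hc, X₁, hcov⟩ := hcovS
  obtain ⟨C, hC, y₀, hgood⟩ := good_one
  set c' : ℝ := c / (8 * C) with hc'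
  have hc'0 : 0 < c' := by positivity
  obtain ⟨X₂, hX₂⟩ := ev_log (max (max 6000 (40 * c')) (max (10 * y₀) (4 / c')))
  refine ⟨c', hc'0, max X₁ X₂, fun X hX z M hM1 hMV => ?_⟩
  obtain ⟨hX1, m1, m2, m3, m4⟩ := hX₂ X ((le_max_right _ _).trans hX)
  have hcov' := hcov X ((le_max_left _ _).trans hX)
  set Mx : ℝ := max (max 6000 (40 * c')) (max (10 * y₀) (4 / c')) with hMx
  have M1 : 6000 ≤ Mx := (le_max_left _ _).trans (le_max_left _ _)
  have M2 : 40 * c' ≤ Mx := (le_max_right _ _).trans (le_max_left _ _)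
  have M3 : 10 * y₀ ≤ Mx := (le_max_left _ _).trans (le_max_right _ _)
  have M4 : 4 / c' ≤ Mx := (le_max_right _ _).trans (le_max_right _ _)
  have hff : ff X = Real.log X * Real.log (Real.log X) ^ 2 *
    Real.log (Real.log (Real.log (Real.log X))) / Real.log (Real.log (Real.log X)) ^ 2 := rfl
  set l1 := Real.log X with hl1
  obtain ⟨f1, f2, f3, f4, f5, f6⟩ := yfacts (l1 := l1) (by linarith) (by linarith) (by linarith)
    (by linarith)
  set l2 := Real.log l1 with hl2
  set l3 := Real.log l2 with hl3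
  set l4 := Real.log l3 with hl4
  set y := l1 / 10 with hy
  set a := Real.log y with ha
  set b := Real.log a with hb
  set d := Real.log b with hd
  have p1 : 0 < l1 := by linarith
  have p2 : 0 < l2 := by linarith
  have p3 : 0 < l3 := by linarith
  have p4 : 0 < l4 := by linarith
  have pa : 0 < a := by linarith
  have pb : 0 < b := by linarith
  have pd : 0 < d := by linarith
  have q1 : l3 ^ 2 ≤ 4 * l2 := log_sq_le (by linarith)
  have q2 : l2 ^ 2 ≤ 4 * l1 := log_sq_le (by linarith)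
  have q3 : l4 ≤ l3 := by
    have := Real.log_le_sub_one_of_pos p3
    linarith
  have hlM0 : 0 ≤ Real.log M := Real.log_nonneg hM1
  have hM0 : 0 < M := by linarith
  -- bound for log M
  have hV : Real.log M ≤ l2 * l4 / (5 * l3) := by
    refine hMV.trans ?_
    calc a * d / (10 * b) ≤ l2 * l4 / (10 * (l3 / 2)) := by gcongr
      _ = l2 * l4 / (5 * l3) := by ring
  have hl23 : 25 * l3 ≤ l2 := by
    have h0 : 100 * l3 ≤ l3 ^ 2 := by
      rw [sq]
      exact mul_le_mul_of_nonneg_right (by linarith) p3.le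
    linarith
  have hone : 1 ≤ l2 * l4 / (5 * l3) := by
    rw [le_div_iff₀ (by positivity)]
    calc 1 * (5 * l3) ≤ l2 * 1 := by linarith
      _ ≤ l2 * l4 := by gcongr; linarith
  have hM2 : 1 + Real.log M ≤ l2 * l4 / l3 := by
    have : l2 * l4 / (5 * l3) = l2 * l4 / l3 / 5 := by field_simp
    rw [this] at hV hone
    linarith
  have hMl : M ≤ l1 := by
    rw [← Real.log_le_log_iff hM0 p1]
    refine hV.trans ?_
    rw [div_le_iff₀ (by positivity)]
    calc l2 * l4 ≤ l2 * l3 := by gcongr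
      _ ≤ l2 * (5 * l3) := by gcongr; linarith
  have hlM1 : 0 < 1 + Real.log M := by linarith
  set F : ℝ := c' * (ff X / (1 + Real.log M)) with hF
  have hffpos : 0 < ff X := by rw [hff]; positivity
  have hF0 : 0 ≤ F := by positivity
  -- lower bound
  have F1 : l1 ≤ F := by
    have h1 : ff X / (l2 * l4 / l3) ≤ ff X / (1 + Real.log M) := by gcongr
    have h2 : ff X / (l2 * l4 / l3) = l1 * (l2 / l3) := by
      rw [hff]
      field_simp
    have h3 : l3 / 4 ≤ l2 / l3 := by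
      rw [div_le_div_iff₀ (by norm_num) p3, ← sq]
      linarith
    have h4 : 1 ≤ c' * (l3 / 4) := by
      rw [div_le_iff₀ hc'0] at M4
      have h0 : Mx * c' ≤ l3 * c' := by gcongr
      linarith
    calc l1 = l1 * 1 := by ring
      _ ≤ l1 * (c' * (l3 / 4)) := by gcongr
      _ ≤ l1 * (c' * (l2 / l3)) := by gcongr
      _ = c' * (ff X / (l2 * l4 / l3)) := by rw [h2]; ring
      _ ≤ F := by rw [hF]; gcongr
  -- upper bound
  have F2 : F ≤ l1 * l2 ^ 2 / 40 := by
    have h0 : ff X / (1 + Real.log M) ≤ ff X := div_le_self hffpos.le (by linarith)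
    have h1 : l4 / l3 ^ 2 ≤ 1 / Mx := by
      rw [div_le_div_iff₀ (by positivity) (by linarith)]
      calc l4 * Mx ≤ l3 * l3 := by gcongr
        _ = 1 * l3 ^ 2 := by ring
    have h2 : c' * (1 / Mx) ≤ 1 / 40 := by
      rw [mul_one_div, div_le_div_iff₀ (by linarith) (by norm_num)]
      linarith
    calc F ≤ c' * ff X := by rw [hF]; gcongr
      _ = l1 * l2 ^ 2 * (c' * (l4 / l3 ^ 2)) := by rw [hff]; ring
      _ ≤ l1 * l2 ^ 2 * (c' * (1 / Mx)) := by gcongr
      _ ≤ l1 * l2 ^ 2 * (1 / 40) := by gcongr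
      _ = _ := by ring
  have F3 : F ≤ l1 ^ 2 := by
    refine F2.trans ?_
    calc l1 * l2 ^ 2 / 40 ≤ l1 * (4 * l1) / 40 := by gcongr
      _ ≤ l1 ^ 2 := by
        have h0 := sq_nonneg l1
        linarith
  have hLF : (⌊F⌋₊ : ℝ) ≤ F := Nat.floor_le hF0
  have hyL : y ≤ ⌊F⌋₊ := by
    have := Nat.lt_floor_add_one F
    rw [hy]
    linarith
  have hLy : (⌊F⌋₊ : ℝ) ≤ y * a ^ 2 := by
    refine hLF.trans (F2.trans ?_)
    calc l1 * l2 ^ 2 / 40 = l1 / 10 * (l2 / 2) ^ 2 := by ring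
      _ ≤ y * a ^ 2 := by rw [← hy]; gcongr
  have hg := hgood y (by rw [hy]; linarith) ⌊F⌋₊ hyL hLy M hM1 hMV
  have hg2 : Good y ⌊F⌋₊ M (c * l1) := by
    apply hg.mono
    calc C * (⌊F⌋₊ * (1 + Real.log M) * b ^ 2 / (a ^ 2 * d))
        ≤ C * (F * (1 + Real.log M) * l3 ^ 2 / ((l2 / 2) ^ 2 * (l4 / 2))) := by gcongr
      _ = c * l1 := by
        rw [hF, hff, hc']
        field_simp
        ring
  exact run_common (by linarith) hX1 hcov' hg2 z hM1 hMl hF0 F3

theorem part_two : ∃ c : ℝ, 0 < c ∧ ∃ X₀ : ℝ, ∀ X : ℝ, X₀ ≤ X → ∀ (z : ℕ) (M : ℝ), 1 ≤ M →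
    M ≤ Real.log X / Real.log (Real.log X) ^ 4 →
    Run z X M (c * (Real.log X * Real.log (Real.log X) / Real.log (Real.log (Real.log X)))) := by
  have hcovS : CovStmt := covering
  obtain ⟨c, hc, X₁, hcov⟩ := hcovS
  obtain ⟨y₀, hgood⟩ := good_two
  set c' : ℝ := min (c / 44) (1 / 10) with hc'
  have hc'0 : 0 < c' := lt_min (by positivity) (by norm_num)
  have hc'1 : c' ≤ c / 44 := min_le_left _ _
  have hc'2 : c' ≤ 1 / 10 := min_le_right _ _
  obtain ⟨X₂, hX₂⟩ := ev_log (max 6000 (max (10 * y₀) (4 / c')))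
  refine ⟨c', hc'0, max X₁ X₂, fun X hX z M hM1 hM => ?_⟩
  obtain ⟨hX1, m1, m2, m3, m4⟩ := hX₂ X ((le_max_right _ _).trans hX)
  have hcov' := hcov X ((le_max_left _ _).trans hX)
  set Mx : ℝ := max 6000 (max (10 * y₀) (4 / c')) with hMx
  have M1 : 6000 ≤ Mx := le_max_left _ _
  have M3 : 10 * y₀ ≤ Mx := (le_max_left _ _).trans (le_max_right _ _)
  have M4 : 4 / c' ≤ Mx := (le_max_right _ _).trans (le_max_right _ _)
  set l1 := Real.log X with hl1
  obtain ⟨f1, f2, f3, f4, f5, f6⟩ := yfacts (l1 := l1) (by linarith) (by linarith) (by linarith)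
    (by linarith)
  set l2 := Real.log l1 with hl2
  set l3 := Real.log l2 with hl3
  set l4 := Real.log l3 with hl4
  set y := l1 / 10 with hy
  set a := Real.log y with ha
  have p1 : 0 < l1 := by linarith
  have p2 : 0 < l2 := by linarith
  have p3 : 0 < l3 := by linarith
  have pa : 0 < a := by linarith
  have py : 0 < y := by rw [hy]; positivity
  have q1 : l3 ^ 2 ≤ 4 * l2 := log_sq_le (by linarith)
  have q2 : l2 ^ 2 ≤ 4 * l1 := log_sq_le (by linarith)
  have hM0 : 0 < M := by linarith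
  have hMl : M ≤ l1 := by
    refine hM.trans (div_le_self p1.le ?_)
    exact one_le_pow₀ (by linarith)
  set F : ℝ := c' * (l1 * l2 / l3) with hF
  have hF0 : 0 ≤ F := by positivity
  have F1 : l1 ≤ F := by
    have h3 : l3 / 4 ≤ l2 / l3 := by
      rw [div_le_div_iff₀ (by norm_num) p3, ← sq]
      linarith
    have h4 : 1 ≤ c' * (l3 / 4) := by
      rw [div_le_iff₀ hc'0] at M4
      have h0 : Mx * c' ≤ l3 * c' := by gcongr
      linarith
    calc l1 = l1 * 1 := by ring
      _ ≤ l1 * (c' * (l3 / 4)) := by gcongr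
      _ ≤ l1 * (c' * (l2 / l3)) := by gcongr
      _ = F := by rw [hF]; ring
  have F2 : F ≤ l1 * l2 / 10 := by
    have h1 : l1 * l2 / l3 ≤ l1 * l2 := div_le_self (by positivity) (by linarith)
    calc F ≤ 1 / 10 * (l1 * l2) := by rw [hF]; gcongr
      _ = _ := by ring
  have hl12 : l2 ≤ l1 := by
    have := Real.log_le_sub_one_of_pos p1
    linarith
  have F3 : F ≤ l1 ^ 2 := by
    refine F2.trans ?_
    calc l1 * l2 / 10 ≤ l1 * l1 / 10 := by gcongr
      _ ≤ l1 ^ 2 := by
        have h0 := sq_nonneg l1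
        linarith
  have hLF : (⌊F⌋₊ : ℝ) ≤ F := Nat.floor_le hF0
  have hyL : y ≤ ⌊F⌋₊ := by
    have := Nat.lt_floor_add_one F
    rw [hy]
    linarith
  have hLy : (⌊F⌋₊ : ℝ) ≤ y * a ^ 2 := by
    refine hLF.trans (F2.trans ?_)
    have h1 : l2 ≤ a ^ 2 := by
      have h0 : (l2 / 2) ^ 2 ≤ a ^ 2 := by gcongr
      have h2 : 100 * l2 ≤ l2 ^ 2 := by
        rw [sq]
        exact mul_le_mul_of_nonneg_right (by linarith) p2.le
      have h3 : (l2 / 2) ^ 2 = l2 ^ 2 / 4 := by ring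
      linarith
    calc l1 * l2 / 10 = l1 / 10 * l2 := by ring
      _ ≤ y * a ^ 2 := by rw [← hy]; gcongr
  have hMy : 128 * M * a ^ 3 ≤ y := by
    calc 128 * M * a ^ 3 ≤ 128 * (l1 / l2 ^ 4) * l2 ^ 3 := by gcongr
      _ = l1 * (128 / l2) := by field_simp
      _ ≤ l1 * (1 / 10) := by
        apply mul_le_mul_of_nonneg_left _ p1.le
        rw [div_le_div_iff₀ p2 (by norm_num)]
        linarith
      _ = y := by rw [hy]; ring
  have hg := hgood y (by rw [hy]; linarith) ⌊F⌋₊ hyL hLy M hM1 hMy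
  have hLy0 : 0 < (⌊F⌋₊ : ℝ) / y := by
    have : 0 < (⌊F⌋₊ : ℝ) := by linarith
    positivity
  have hlogLy : Real.log (⌊F⌋₊ / y) ≤ l3 := by
    rw [hl3]
    apply Real.log_le_log hLy0
    rw [div_le_iff₀ py]
    calc (⌊F⌋₊ : ℝ) ≤ F := hLF
      _ ≤ l1 * l2 / 10 := F2
      _ = l2 * y := by rw [hy]; ring
  have hg2 : Good y ⌊F⌋₊ M (c * l1) := by
    apply hg.mono
    have hlog0 : 0 ≤ Real.log (⌊F⌋₊ / y) := by
      apply Real.log_nonneg
      rw [one_le_div py]
      exact hyL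
    calc 11 * (⌊F⌋₊ : ℝ) * (1 + Real.log (⌊F⌋₊ / y)) / a
        ≤ 11 * F * (1 + l3) / (l2 / 2) := by gcongr
      _ ≤ 11 * F * (l3 + l3) / (l2 / 2) := by gcongr; linarith
      _ = 44 * c' * l1 := by rw [hF]; field_simp; ring
      _ ≤ 44 * (c / 44) * l1 := by gcongr
      _ = c * l1 := by ring
  exact run_common (by linarith) hX1 hcov' hg2 z hM1 hMl hF0 F3

end Pool.Agent.Y824
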