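import Mathlib
import Pool.Agent.Y824.RunCnt

set_option autoImplicit false

/-! # The presieving modulus (helper824) -/

namespace Pool.Agent.Y824

open Finset Pool.Agent.H398R2.RK Pool.Agent.H318R2.Cr

open scoped Classical

/-- `A! · ∏_{p ≤ y} p ≤ exp (2 y)` for `A = ⌊(log y)²⌋` -/
theorem size_ev : ∃ y₀ : ℝ, ∀ y : ℝ, y₀ ≤ y → 100 ≤ y ∧ (Real.log y) ^ 2 ≤ y ∧
    (((⌊(Real.log y) ^ 2⌋₊).factorial : ℕ) : ℝ) * (primorial ⌊y⌋₊ : ℝ) ≤ Real.exp (2 * y) := by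
  obtain ⟨t₀, hev⟩ := ev_surv
  refine ⟨Real.exp (Real.exp t₀), fun y hy' => ?_⟩
  have hy0 : 0 < y := (Real.exp_pos _).trans_le hy'
  have hL1' : Real.exp t₀ ≤ Real.log y := by
    rw [← Real.log_exp (Real.exp t₀)]; exact Real.log_le_log (Real.exp_pos _) hy'
  have hly : 0 < Real.log y := (Real.exp_pos _).trans_le hL1'
  set t := Real.log (Real.log y) with ht
  have htt : t₀ ≤ t := by
    rw [← Real.log_exp t₀]; exact Real.log_le_log (Real.exp_pos _) hL1'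
  obtain ⟨h1, h2, h3, h4, h5, h6⟩ := hev t htt
  have hLe : Real.log y = Real.exp t := by rw [ht, Real.exp_log hly]
  have hye : y = Real.exp (Real.exp t) := by rw [← hLe, Real.exp_log hy0]
  set e := Real.exp t with he
  have he0 : 0 < e := Real.exp_pos t
  have hy4 : e ^ 4 / 24 ≤ y := by
    have h7 := Real.pow_div_factorial_le_exp e he0.le 4
    norm_num [Nat.factorial] at h7
    rw [hye]
    exact h7
  have hl100 : 100 ≤ Real.log y := by rw [hLe]; exact h4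
  have hbig : 400 * t * e ^ 2 ≤ y * 24 := by
    have h8 : 400 * t ≤ e ^ 2 := by nlinarith
    have h9 : e ^ 2 * e ^ 2 ≤ y * 24 := by nlinarith
    nlinarith [sq_nonneg e]
  have hsq : (Real.log y) ^ 2 ≤ y := by
    rw [hLe]
    nlinarith [sq_nonneg e]
  refine ⟨?_, hsq, ?_⟩
  · nlinarith
  · set A := ⌊(Real.log y) ^ 2⌋₊ with hA
    have hAe : (A : ℝ) ≤ e ^ 2 := by
      rw [hA, hLe]
      exact Nat.floor_le (by positivity)
    have hfac : ((A.factorial : ℕ) : ℝ) ≤ Real.exp (2 * t * e ^ 2) := by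
      have h7 : ((A.factorial : ℕ) : ℝ) ≤ (A : ℝ) ^ A := by exact_mod_cast Nat.factorial_le_pow A
      have h8 : (A : ℝ) ≤ Real.exp (2 * t) := by
        refine hAe.trans (le_of_eq ?_)
        rw [he, ← Real.exp_nat_mul]
        push_cast
        ring_nf
      calc ((A.factorial : ℕ) : ℝ) ≤ (A : ℝ) ^ A := h7
        _ ≤ (Real.exp (2 * t)) ^ A := by gcongr
        _ = Real.exp (A * (2 * t)) := by rw [← Real.exp_nat_mul]
        _ ≤ Real.exp (2 * t * e ^ 2) := by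
          apply Real.exp_le_exp.2
          nlinarith
    have hprim : (primorial ⌊y⌋₊ : ℝ) ≤ Real.exp (1.4 * y) := by
      have h7 : (primorial ⌊y⌋₊ : ℝ) ≤ 4 ^ ⌊y⌋₊ := by exact_mod_cast primorial_le_four_pow _
      have h8 : (4 : ℝ) ≤ Real.exp 1.4 := by
        have h9 : (4 : ℝ) = Real.exp (2 * Real.log 2) := by
          rw [show (2 : ℝ) * Real.log 2 = Real.log 2 + Real.log 2 by ring, Real.exp_add,
            Real.exp_log (by norm_num)]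
          norm_num
        rw [h9]
        apply Real.exp_le_exp.2
        have := Real.log_two_lt_d9
        linarith
      calc (primorial ⌊y⌋₊ : ℝ) ≤ 4 ^ ⌊y⌋₊ := h7
        _ ≤ (Real.exp 1.4) ^ ⌊y⌋₊ := by gcongr
        _ = Real.exp (⌊y⌋₊ * 1.4) := by rw [← Real.exp_nat_mul]
        _ ≤ Real.exp (1.4 * y) := by
          apply Real.exp_le_exp.2
          have := Nat.floor_le hy0.le
          linarith
    calc ((A.factorial : ℕ) : ℝ) * (primorial ⌊y⌋₊ : ℝ)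
        ≤ Real.exp (2 * t * e ^ 2) * Real.exp (1.4 * y) := by gcongr
      _ = Real.exp (2 * t * e ^ 2 + 1.4 * y) := by rw [← Real.exp_add]
      _ ≤ Real.exp (2 * y) := by
        apply Real.exp_le_exp.2
        linarith

theorem modulus_of : ∃ y₀ : ℝ, ∀ y : ℝ, y₀ ≤ y → ∀ S : Finset ℕ,
    (∀ p ∈ S, p.Prime ∧ (Real.log y) ^ 2 < p ∧ (p : ℝ) ≤ y) →
    ∃ T : ℕ, 0 < T ∧ (∀ p : ℕ, p.Prime → p ∣ T → (p : ℝ) ≤ y) ∧ (∀ p ∈ S, ¬ p ∣ T) ∧
      ((T : ℝ) * ∏ p ∈ S, (p : ℝ) ≤ Real.exp (2 * y)) ∧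
      (∀ m : ℕ, 1 ≤ m → (m : ℝ) ≤ (Real.log y) ^ 2 → m ∣ T) ∧
      (∀ p : ℕ, p.Prime → (p : ℝ) ≤ y → p ∉ S → p ∣ T) ∧
      (S = ∅ → ∀ d : ℕ, Squarefree d → (∀ p : ℕ, p.Prime → p ∣ d → (p : ℝ) ≤ y) → d ∣ T) := by
  obtain ⟨y₀, hy₀⟩ := size_ev
  refine ⟨y₀, fun y hy S hS => ?_⟩
  obtain ⟨hy100, hsq, hsize⟩ := hy₀ y hy
  have hypos : 0 ≤ y := by linarith
  set A := ⌊(Real.log y) ^ 2⌋₊ with hA
  set P : Finset ℕ := (range (⌊y⌋₊ + 1)).filter Nat.Prime with hP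
  have hmemP : ∀ p : ℕ, p ∈ P ↔ p.Prime ∧ (p : ℝ) ≤ y := by
    intro p
    rw [hP, mem_filter, mem_range, Nat.lt_succ_iff, Nat.le_floor_iff hypos, and_comm]
  have hSP : S ⊆ P := fun p hp => (hmemP p).2 ⟨(hS p hp).1, (hS p hp).2.2⟩
  have hdvd : ∀ p : ℕ, p.Prime → ∀ Q : Finset ℕ, (∀ q ∈ Q, q.Prime) → p ∣ ∏ q ∈ Q, q → p ∈ Q := by
    intro p hp Q hQ hd
    obtain ⟨q, hq, hpq⟩ := (hp.prime.dvd_finsetProd_iff _).1 hd
    rwa [(Nat.prime_dvd_prime_iff_eq hp (hQ q hq)).1 hpq]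
  have hPS : ∀ q ∈ P \ S, q.Prime := fun q hq => ((hmemP q).1 (mem_sdiff.1 hq).1).1
  refine ⟨A.factorial * ∏ p ∈ P \ S, p, ?_, ?_, ?_, ?_, ?_, ?_, ?_⟩
  · apply Nat.mul_pos (Nat.factorial_pos _)
    exact prod_pos fun p hp => (hPS p hp).pos
  · intro p hp hd
    rcases (hp.dvd_mul).1 hd with h | h
    · have h1 : p ≤ A := (hp.dvd_factorial).1 h
      have h2 : (p : ℝ) ≤ (Real.log y) ^ 2 := (Nat.le_floor_iff (by positivity)).1 h1
      linarith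
    · exact ((hmemP p).1 (mem_sdiff.1 (hdvd p hp _ hPS h)).1).2
  · intro p hp hd
    obtain ⟨hpp, hpl, hpy⟩ := hS p hp
    rcases (hpp.dvd_mul).1 hd with h | h
    · have h1 : p ≤ A := (hpp.dvd_factorial).1 h
      have h2 : (p : ℝ) ≤ (Real.log y) ^ 2 := (Nat.le_floor_iff (by positivity)).1 h1
      linarith
    · exact (mem_sdiff.1 (hdvd p hpp _ hPS h)).2 hp
  · have h1 : (((A.factorial * ∏ p ∈ P \ S, p : ℕ) : ℕ) : ℝ) * ∏ p ∈ S, (p : ℝ) =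
        ((A.factorial : ℕ) : ℝ) * (primorial ⌊y⌋₊ : ℝ) := by
      have h2 : primorial ⌊y⌋₊ = (∏ p ∈ P \ S, p) * ∏ p ∈ S, p := by
        rw [prod_sdiff hSP]
        rfl
      rw [h2]
      push_cast
      ring
    rw [h1]
    exact hsize
  · intro m hm1 hm2
    apply Dvd.dvd.mul_right
    exact Nat.dvd_factorial hm1 (Nat.le_floor hm2)
  · intro p hp hpy hpS
    apply Dvd.dvd.mul_left
    exact dvd_prod_of_mem _ (mem_sdiff.2 ⟨(hmemP p).2 ⟨hp, hpy⟩, hpS⟩)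
  · intro hSe d hd hdy
    apply Dvd.dvd.mul_left
    rw [← Nat.prod_primeFactors_of_squarefree hd, hSe, sdiff_empty]
    apply prod_dvd_prod_of_subset
    intro p hp
    have hpp := Nat.prime_of_mem_primeFactors hp
    exact (hmemP p).2 ⟨hpp, hdy p hpp (Nat.dvd_of_mem_primeFactors hp)⟩

/-- the presieving data -/
def Good (y : ℝ) (L : ℕ) (M K : ℝ) : Prop :=
  ∃ (T : ℕ) (S : Finset ℕ) (b : ℕ → ℕ), 0 < T ∧ (∀ p : ℕ, p.Prime → p ∣ T → (p : ℝ) ≤ y) ∧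
    (∀ p ∈ S, p.Prime ∧ M < p ∧ (p : ℝ) ≤ y ∧ ¬ p ∣ T ∧ b p < p) ∧
    ((T : ℝ) * ∏ p ∈ S, (p : ℝ) ≤ Real.exp (2 * y)) ∧
    (((Icc 1 L).filter (fun k => (∀ d : ℕ, d ∣ T → d ∣ k → (d : ℝ) ≤ M) ∧
      ∀ p ∈ S, ¬ k ≡ b p [MOD p])).card : ℝ) ≤ K

theorem good_two : ∃ y₀ : ℝ, ∀ y : ℝ, y₀ ≤ y → ∀ L : ℕ, y ≤ L →
    (L : ℝ) ≤ y * (Real.log y) ^ 2 → ∀ M : ℝ, 1 ≤ M → 128 * M * (Real.log y) ^ 3 ≤ y →
    Good y L M (11 * L * (1 + Real.log (L / y)) / Real.log y) := by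
  obtain ⟨y₀, hy₀⟩ := modulus_of
  refine ⟨max y₀ 3, fun y hy L hyL hLy M hM1 hM => ?_⟩
  have hy3 : 3 ≤ y := (le_max_right _ _).trans hy
  have hly : 0 < Real.log y := Real.log_pos (by linarith)
  obtain ⟨T, hT0, hTy, -, hTs, hTm, hTp, hTd⟩ := hy₀ y ((le_max_left _ _).trans hy) ∅ (by simp)
  refine ⟨T, ∅, fun _ => 0, hT0, hTy, by simp, hTs, ?_⟩
  have hsub : (Icc 1 L).filter (fun k => (∀ d : ℕ, d ∣ T → d ∣ k → (d : ℝ) ≤ M) ∧
      ∀ p ∈ (∅ : Finset ℕ), ¬ k ≡ (fun _ => 0) p [MOD p]) ⊆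
      (Icc 1 L).filter (fun k => ∀ d : ℕ, Squarefree d → d ∣ k → (d : ℝ) ≤ M) ∪
      (Icc 1 L).filter (fun k => ∃ m p : ℕ, p.Prime ∧ y < p ∧ k = m * p ∧ (m : ℝ) ≤ L / y) := by
    intro k hk
    rw [mem_filter, mem_Icc] at hk
    obtain ⟨⟨hk1, hkL⟩, hd, -⟩ := hk
    rw [mem_union, mem_filter, mem_filter, mem_Icc]
    by_cases hsm : ∀ p : ℕ, p.Prime → p ∣ k → (p : ℝ) ≤ y
    · left
      refine ⟨⟨hk1, hkL⟩, fun d hds hdk => hd d ?_ hdk⟩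
      exact hTd rfl d hds fun p hp hpd => hsm p hp (hpd.trans hdk)
    · right
      push Not at hsm
      obtain ⟨p, hp, ⟨m, rfl⟩, hyp⟩ := hsm
      refine ⟨⟨hk1, hkL⟩, m, p, hp, hyp, by ring, ?_⟩
      rw [le_div_iff₀ (by linarith)]
      have h1 : ((p * m : ℕ) : ℝ) ≤ L := by exact_mod_cast hkL
      push_cast at h1
      have h2 : (0 : ℝ) ≤ m := by positivity
      nlinarith
  have h1 := card_sq L y M hy3 hyL hM1 hM
  have hLy1 : 1 ≤ (L : ℝ) / y := by rw [one_le_div (by linarith)]; exact hyL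
  have h2 := card_mp L y (L / y) (by linarith) hLy1
  have hlog0 : 0 ≤ Real.log ((L : ℝ) / y) := Real.log_nonneg hLy1
  have hL0 : (0 : ℝ) < L := by linarith
  have h3 : (L : ℝ) / Real.log y ≤ L * (1 + Real.log (L / y)) / Real.log y := by
    apply div_le_div_of_nonneg_right _ hly.le
    nlinarith
  calc _ ≤ ((((Icc 1 L).filter (fun k => ∀ d : ℕ, Squarefree d → d ∣ k → (d : ℝ) ≤ M) ∪
      (Icc 1 L).filter (fun k => ∃ m p : ℕ, p.Prime ∧ y < p ∧ k = m * p ∧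
        (m : ℝ) ≤ L / y)).card : ℕ) : ℝ) := by exact_mod_cast card_le_card hsub
    _ ≤ (((Icc 1 L).filter (fun k => ∀ d : ℕ, Squarefree d → d ∣ k → (d : ℝ) ≤ M)).card : ℝ) +
      (((Icc 1 L).filter (fun k => ∃ m p : ℕ, p.Prime ∧ y < p ∧ k = m * p ∧
        (m : ℝ) ≤ L / y)).card : ℝ) := by exact_mod_cast card_union_le _ _
    _ ≤ L * (1 + Real.log (L / y)) / Real.log y +
        10 * L / Real.log y * (1 + Real.log (L / y)) := by linarith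
    _ = _ := by ring

end Pool.Agent.Y824
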