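import Mathlib
import Pool.Agent.Y824.RunMod

set_option autoImplicit false
set_option maxHeartbeats 4000000

/-! # The presieving with a greedy step (helper824) -/

namespace Pool.Agent.Y824

open Finset Pool.Agent.H398R2.RK Pool.Agent.H318R2.Cr

open scoped Classical

theorem good_one : ∃ C : ℝ, 0 < C ∧ ∃ y₀ : ℝ, ∀ y : ℝ, y₀ ≤ y → ∀ L : ℕ, y ≤ L →
    (L : ℝ) ≤ y * (Real.log y) ^ 2 → ∀ M : ℝ, 1 ≤ M →
    Real.log M ≤ Real.log y * Real.log (Real.log (Real.log y)) / (10 * Real.log (Real.log y)) →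
    Good y L M (C * (L * (1 + Real.log M) * (Real.log (Real.log y)) ^ 2 /
        ((Real.log y) ^ 2 * Real.log (Real.log (Real.log y))))) := by
  obtain ⟨c₁, c₂, hc₁, hc₁₂, hV⟩ := cz_bounds
  obtain ⟨y₁, hsm⟩ := smooth_count
  obtain ⟨t₀, hev⟩ := ev_surv
  obtain ⟨y₂, hmod⟩ := modulus_of
  have hc₂ : 0 < c₂ := hc₁.trans_le hc₁₂
  refine ⟨1 + 600 * (c₂ / c₁), by positivity, max (max y₁ y₂) (Real.exp (Real.exp t₀)),
    fun y hy L hyL hLy M hM1 hMV => ?_⟩
  have hsm' := hsm y (((le_max_left _ _).trans (le_max_left _ _)).trans hy) L hyL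
  have hy2 := ((le_max_right y₁ y₂).trans (le_max_left _ _)).trans hy
  have hy' := (le_max_right _ _).trans hy
  have hy0 : 0 < y := (Real.exp_pos _).trans_le hy'
  have hL1' : Real.exp t₀ ≤ Real.log y := by
    rw [← Real.log_exp (Real.exp t₀)]; exact Real.log_le_log (Real.exp_pos _) hy'
  have hly : 0 < Real.log y := (Real.exp_pos _).trans_le hL1'
  set t := Real.log (Real.log y) with ht
  have htt : t₀ ≤ t := by
    rw [← Real.log_exp t₀]; exact Real.log_le_log (Real.exp_pos _) hL1'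
  obtain ⟨h1, h2, h3, h4, h5, h6⟩ := hev t htt
  have hLe : Real.log y = Real.exp t := by rw [ht, Real.exp_log hly]
  have hye : y = Real.exp (Real.exp t) := by rw [← hLe, Real.exp_log hy0]
  set V0 := Real.log y * Real.log t / (10 * t) with hV0
  have ht0 : 0 < t := by linarith
  have hlt0 : 0 < Real.log t := by linarith
  -- V0 ≥ 2 t
  have hV1 : 2 * t ≤ V0 := by
    rw [hV0, le_div_iff₀ (by positivity), hLe]
    calc 2 * t * (10 * t) = 20 * t ^ 2 := by ring
      _ ≤ Real.exp t := h3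
      _ ≤ Real.exp t * Real.log t := le_mul_of_one_le_right (Real.exp_pos t).le h2
  have hV1le : V0 ≤ Real.log y := by
    rw [hV0, div_le_iff₀ (by positivity), hLe]
    exact mul_le_mul_of_nonneg_left (by linarith) (Real.exp_pos t).le
  have hV0pos : 0 < V0 := by linarith
  set w₀ : ℝ := (Real.log y) ^ 2 with hw₀
  have hw₀e : w₀ = Real.exp (2 * t) := by
    rw [hw₀, hLe, ← Real.exp_nat_mul]; push_cast; ring_nf
  have hw₀big : 10000 ≤ w₀ := by
    rw [hw₀, hLe, sq]
    calc (10000 : ℝ) = 100 * 100 := by norm_num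
      _ ≤ Real.exp t * Real.exp t := mul_le_mul h4 h4 (by norm_num) (Real.exp_pos t).le
  have hM0 : 0 < M := by linarith
  have hlM0 : 0 ≤ Real.log M := Real.log_nonneg hM1
  have hMe : M ≤ Real.exp V0 := by
    rw [← Real.exp_log hM0]; exact Real.exp_le_exp.2 hMV
  set v₀ : ℝ := max M w₀ with hv₀
  have hMv : M ≤ v₀ := le_max_left _ _
  have hwv : w₀ ≤ v₀ := le_max_right _ _
  have hv₀0 : 0 < v₀ := by linarith
  have hv₀e : v₀ ≤ Real.exp V0 := max_le hMe (by rw [hw₀e]; exact Real.exp_le_exp.2 hV1)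
  have hlv₀ : Real.log v₀ ≤ max (Real.log M) (2 * t) := by
    rcases le_total M w₀ with h | h
    · rw [hv₀, max_eq_right h, hw₀e, Real.log_exp]
      exact le_max_right _ _
    · rw [hv₀, max_eq_left h]
      exact le_max_left _ _
  -- y is large
  have hyV : Real.exp V0 ≤ y := by rw [hye]; apply Real.exp_le_exp.2; rw [← hLe]; exact hV1le
  set u : ℕ := ⌊v₀⌋₊ with hu
  set v : ℕ := ⌊Real.exp V0⌋₊ with hv
  have huv : u ≤ v := Nat.floor_le_floor hv₀e
  have hu2 : 2 ≤ u := by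
    rw [hu, Nat.le_floor_iff hv₀0.le]; push_cast; linarith
  have hvle : (v : ℝ) ≤ Real.exp V0 := Nat.floor_le (Real.exp_pos _).le
  have hule : (u : ℝ) ≤ v₀ := Nat.floor_le hv₀0.le
  have hv0 : (0 : ℝ) < v := by exact_mod_cast (by omega : 0 < v)
  have hu0 : (0 : ℝ) < u := by exact_mod_cast (by omega : 0 < u)
  have hlu : Real.log u ≤ Real.log v₀ := Real.log_le_log hu0 hule
  have hlu0 : 0 < Real.log u := Real.log_pos (by exact_mod_cast (by omega : 1 < u))
  have hlv0 : 0 < Real.log v := Real.log_pos (by exact_mod_cast (by omega : 1 < v))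
  have hlv : V0 / 2 ≤ Real.log v := by
    have h7 : Real.exp V0 < v + 1 := Nat.lt_floor_add_one _
    have h8 : (2 : ℝ) ≤ v := by exact_mod_cast (by omega : 2 ≤ v)
    have h9 : Real.exp V0 ≤ (v : ℝ) ^ 2 := by
      have h11 : (v : ℝ) * 2 ≤ v * v := mul_le_mul_of_nonneg_left h8 hv0.le
      rw [sq]
      linarith
    have h10 := Real.log_le_log (Real.exp_pos _) h9
    rw [Real.log_exp, Real.log_pow] at h10
    push_cast at h10; linarith
  -- the primes for the greedy step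
  set S : Finset ℕ := (Icc 1 v).filter (fun p : ℕ => p.Prime ∧ v₀ < (p : ℝ)) with hS
  have hSv : ∀ p ∈ S, v₀ < (p : ℝ) := fun p hp => (mem_filter.1 hp).2.2
  have hSpr : ∀ p ∈ S, p.Prime := fun p hp => (mem_filter.1 hp).2.1
  -- membership in S for primes
  have hSmem : ∀ p : ℕ, p.Prime → (p ∈ S ↔ v₀ < (p : ℝ) ∧ Real.log p ≤ V0) := by
    intro p hp
    have hp0 : (0 : ℝ) < p := by exact_mod_cast hp.pos
    rw [hS, mem_filter, mem_Icc, Real.log_le_iff_le_exp hp0, hv, Nat.le_floor_iff (Real.exp_pos _).le]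
    constructor
    · rintro ⟨⟨_, h⟩, _, h'⟩; exact ⟨h', h⟩
    · rintro ⟨h, h'⟩; exact ⟨⟨hp.pos, h'⟩, hp, h⟩
  have hSy : ∀ p ∈ S, (p : ℝ) ≤ y := by
    intro p hp
    have hp0 : (0 : ℝ) < p := by exact_mod_cast (hSpr p hp).pos
    have h7 := ((hSmem p (hSpr p hp)).1 hp).2
    rw [← Real.log_le_log_iff hp0 hy0]; linarith
  obtain ⟨T, hT0, hTy, hTS, hTs, hTm, hTp, -⟩ := hmod y hy2 S
    (fun p hp => ⟨hSpr p hp, lt_of_le_of_lt hwv (hSv p hp), hSy p hp⟩)
  -- the set of `m p`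
  set H : ℝ := min M w₀ with hH
  have hH1 : 1 ≤ H := le_min hM1 (by linarith)
  set B : Finset ℕ := (Icc 1 L).filter (fun k => ∃ m p : ℕ, p.Prime ∧ y < p ∧ k = m * p ∧
    (m : ℝ) ≤ H) with hB
  obtain ⟨b, hb, hbc⟩ := Pool.Agent.H398R2.RK.greedy_all S hSpr B
  refine ⟨T, S, b, hT0, hTy, fun p hp => ⟨hSpr p hp, lt_of_le_of_lt hMv (hSv p hp), hSy p hp,
    hTS p hp, hb p hp⟩, hTs, ?_⟩
  have hsub : (Icc 1 L).filter (fun k => (∀ d : ℕ, d ∣ T → d ∣ k → (d : ℝ) ≤ M) ∧
      ∀ p ∈ S, ¬ k ≡ b p [MOD p]) ⊆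
      (Finset.Icc 1 L).filter (fun m => ∀ p : ℕ, p.Prime → p ∣ m → Real.log p ≤ V0) ∪
      B.filter (fun k => ∀ p ∈ S, ¬ k ≡ b p [MOD p]) := by
    intro k hk
    rw [mem_filter, mem_Icc] at hk
    obtain ⟨⟨hk1, hkL⟩, hd, hb'⟩ := hk
    rw [mem_union, mem_filter, mem_filter, mem_Icc]
    by_cases hsmo : ∀ p : ℕ, p.Prime → p ∣ k → Real.log p ≤ V0
    · left
      exact ⟨⟨hk1, hkL⟩, hsmo⟩
    · right
      refine ⟨?_, hb'⟩
      push Not at hsmo
      obtain ⟨p, hp, hpk, hlp⟩ := hsmo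
      have hp0 : (0 : ℝ) < p := by exact_mod_cast hp.pos
      have hpS : p ∉ S := fun h => absurd ((hSmem p hp).1 h).2 (not_le.2 hlp)
      have hyp : y < p := by
        by_contra h
        push Not at h
        have h7 := hd p (hTp p hp h hpS) hpk
        have h8 : Real.log p ≤ Real.log M := Real.log_le_log hp0 h7
        linarith
      obtain ⟨m, rfl⟩ := hpk
      have hm1 : 1 ≤ m := by
        rcases Nat.eq_zero_or_pos m with h | h
        · rw [h] at hk1; simp at hk1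
        · exact h
      have hmw : (m : ℝ) ≤ w₀ := by
        have h7 : (p : ℝ) * m ≤ L := by exact_mod_cast hkL
        have h8 : (0 : ℝ) < m := by exact_mod_cast hm1
        have h9 : y * m < y * w₀ := by
          calc y * m < p * m := by gcongr
            _ ≤ L := h7
            _ ≤ _ := hLy
        exact (lt_of_mul_lt_mul_left h9 hy0.le).le
      have hmM : (m : ℝ) ≤ M := hd m (hTm m hm1 hmw) (Dvd.intro_left p rfl)
      rw [hB, mem_filter, mem_Icc]
      exact ⟨⟨hk1, hkL⟩, m, p, hp, hyp, by ring, le_min hmM hmw⟩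
  have hBcard : (B.card : ℝ) ≤ 10 * L / Real.log y * (1 + Real.log H) :=
    card_mp L y H (by linarith [Real.add_one_le_exp V0]) hH1
  -- the product
  have hPv : V v = V u * ∏ p ∈ S, (1 - 1 / (p : ℝ)) := by
    have h7 : Pz v = Pz u ∪ S := by
      ext p
      rw [mem_union, mem_Pz, mem_Pz, hS, mem_filter, mem_Icc, hu, Nat.le_floor_iff hv₀0.le]
      constructor
      · rintro ⟨hp, hpv⟩
        by_cases h : (p : ℝ) ≤ v₀
        · exact Or.inl ⟨hp, h⟩
        · exact Or.inr ⟨⟨hp.pos, hpv⟩, hp, not_le.1 h⟩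
      · rintro (⟨hp, hpu⟩ | ⟨⟨_, hpv⟩, hp, _⟩)
        · refine ⟨hp, ?_⟩
          have : p ≤ u := by rw [hu, Nat.le_floor_iff hv₀0.le]; exact hpu
          omega
        · exact ⟨hp, hpv⟩
    have h8 : Disjoint (Pz u) S := by
      rw [Finset.disjoint_left]
      intro p hp hpS
      have h9 := (mem_Pz.1 hp).2
      rw [hu, Nat.le_floor_iff hv₀0.le] at h9
      have := hSv p hpS
      linarith
    unfold V
    rw [h7, prod_union h8]
  have hSprod0 : 0 ≤ ∏ p ∈ S, (1 - 1 / (p : ℝ)) :=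
    prod_nonneg fun p hp => (one_sub_inv_pos (hSpr p hp)).le
  have hlv₀0 : 0 < Real.log v₀ := lt_of_lt_of_le hlu0 hlu
  have hSprod : ∏ p ∈ S, (1 - 1 / (p : ℝ)) ≤ c₂ / c₁ * 2 * (Real.log v₀ / V0) := by
    have h7 := (hV v (by omega)).2
    have h8 := (hV u hu2).1
    rw [hPv] at h7
    have hVu := V_pos u
    have h9 : c₁ * (∏ p ∈ S, (1 - 1 / (p : ℝ))) * (V0 / 2) ≤ c₂ * Real.log v₀ := by
      calc c₁ * (∏ p ∈ S, (1 - 1 / (p : ℝ))) * (V0 / 2)
          ≤ (V u * Real.log u) * (∏ p ∈ S, (1 - 1 / (p : ℝ))) * Real.log v := by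
            gcongr
        _ = (V u * (∏ p ∈ S, (1 - 1 / (p : ℝ))) * Real.log v) * Real.log u := by ring
        _ ≤ c₂ * Real.log u := by gcongr
        _ ≤ _ := by gcongr
    have h10 : ∏ p ∈ S, (1 - 1 / (p : ℝ)) ≤ c₂ * Real.log v₀ / (c₁ * (V0 / 2)) := by
      rw [le_div_iff₀ (by positivity)]
      linarith
    refine h10.trans (le_of_eq ?_)
    field_simp
  -- (1 + log H) log v₀ ≤ 3 t (1 + log M)
  have hcomb : (1 + Real.log H) * Real.log v₀ ≤ 3 * t * (1 + Real.log M) := by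
    rcases le_total M w₀ with h | h
    · have e1 : H = M := by rw [hH, min_eq_left h]
      have e2 : Real.log v₀ = 2 * t := by rw [hv₀, max_eq_right h, hw₀e, Real.log_exp]
      rw [e1, e2]
      have e3 := mul_nonneg ht0.le hlM0
      have e4 : (1 + Real.log M) * (2 * t) = 2 * t + 2 * (t * Real.log M) := by ring
      have e5 : 3 * t * (1 + Real.log M) = 3 * t + 3 * (t * Real.log M) := by ring
      linarith
    · have e1 : Real.log H = 2 * t := by rw [hH, min_eq_right h, hw₀e, Real.log_exp]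
      have e2 : Real.log v₀ = Real.log M := by rw [hv₀, max_eq_left h]
      rw [e1, e2]
      have e3 : 1 * Real.log M ≤ t * Real.log M := mul_le_mul_of_nonneg_right h1 hlM0
      have e4 : (1 + 2 * t) * Real.log M = Real.log M + 2 * (t * Real.log M) := by ring
      have e5 : 3 * t * (1 + Real.log M) = 3 * t + 3 * (t * Real.log M) := by ring
      linarith
  have hL0 : (0 : ℝ) < L := by
    have : 0 < y := hy0
    linarith
  have hlH0 : 0 ≤ Real.log H := Real.log_nonneg hH1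
  have hpart2 : (((B.filter (fun k => ∀ p ∈ S, ¬ k ≡ b p [MOD p])).card : ℕ) : ℝ) ≤
      600 * (c₂ / c₁) * (L * (1 + Real.log M) * t ^ 2 / (Real.log y ^ 2 * Real.log t)) := by
    calc (((B.filter (fun k => ∀ p ∈ S, ¬ k ≡ b p [MOD p])).card : ℕ) : ℝ)
        ≤ B.card * ∏ p ∈ S, (1 - 1 / (p : ℝ)) := hbc
      _ ≤ (10 * L / Real.log y * (1 + Real.log H)) * (c₂ / c₁ * 2 * (Real.log v₀ / V0)) := by
          gcongr
      _ = (20 * (c₂ / c₁) * L / (Real.log y * V0)) * ((1 + Real.log H) * Real.log v₀) := by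
          field_simp
          ring
      _ ≤ (20 * (c₂ / c₁) * L / (Real.log y * V0)) * (3 * t * (1 + Real.log M)) := by
          gcongr
      _ = _ := by
          rw [hV0]
          field_simp
          ring
  have hpart1 : (L : ℝ) / (Real.log y) ^ 3 ≤
      L * (1 + Real.log M) * t ^ 2 / (Real.log y ^ 2 * Real.log t) := by
    rw [div_le_div_iff₀ (by positivity) (by positivity)]
    have h7 : Real.log y ^ 2 * Real.log t ≤ Real.log y ^ 3 := by
      have : Real.log t ≤ Real.log y := by rw [hLe]; linarith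
      calc Real.log y ^ 2 * Real.log t ≤ Real.log y ^ 2 * Real.log y := by gcongr
        _ = Real.log y ^ 3 := by ring
    have h8 : (1 : ℝ) ≤ (1 + Real.log M) * t ^ 2 := by
      have e1 : (1 : ℝ) ≤ t ^ 2 := one_le_pow₀ h1
      calc (1 : ℝ) = 1 * 1 := by norm_num
        _ ≤ (1 + Real.log M) * t ^ 2 := mul_le_mul (by linarith) e1 (by norm_num) (by linarith)
    calc (L : ℝ) * (Real.log y ^ 2 * Real.log t) ≤ L * Real.log y ^ 3 := by gcongr
      _ = L * 1 * Real.log y ^ 3 := by ring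
      _ ≤ L * ((1 + Real.log M) * t ^ 2) * Real.log y ^ 3 := by gcongr
      _ = _ := by ring
  calc _ ≤ ((((Finset.Icc 1 L).filter (fun m => ∀ p : ℕ, p.Prime → p ∣ m → Real.log p ≤ V0) ∪
      B.filter (fun k => ∀ p ∈ S, ¬ k ≡ b p [MOD p])).card : ℕ) : ℝ) := by
        exact_mod_cast card_le_card hsub
    _ ≤ (((Finset.Icc 1 L).filter (fun m => ∀ p : ℕ, p.Prime → p ∣ m →
          Real.log p ≤ V0)).card : ℝ) +
        (((B.filter (fun k => ∀ p ∈ S, ¬ k ≡ b p [MOD p])).card : ℕ) : ℝ) := by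
        exact_mod_cast card_union_le _ _
    _ ≤ L * (1 + Real.log M) * t ^ 2 / (Real.log y ^ 2 * Real.log t) +
        600 * (c₂ / c₁) * (L * (1 + Real.log M) * t ^ 2 / (Real.log y ^ 2 * Real.log t)) := by
        linarith
    _ = _ := by ring

end Pool.Agent.Y824
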