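import Pool.Agent.Y824.RunFin

set_option autoImplicit false
set_option maxHeartbeats 4000000

/-! # Runs of integers with small largest prime factor: the theorem (helper824) -/

namespace Pool.Agent.Y824

open Finset Pool.Agent.H256R2.SC Pool.Agent.H256R2.SC.LG

open scoped Classical

theorem part_three : ∃ c₀ : ℝ, 0 < c₀ ∧ ∃ X₀ : ℝ, ∀ X : ℝ, X₀ ≤ X → ∀ c : ℝ, 0 < c → c ≤ c₀ →
    ∀ (z : ℕ) (M : ℝ), Real.sqrt (Real.log X) ≤ M → M ≤ X ^ c →
    Run z X M (c * (Real.log X / Real.log M * Real.log (Real.log X / Real.log M))) := by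
  obtain ⟨c₁, hc₁, R₀, hR₀, hrun⟩ := run_cut
  have hRpos : 0 < R₀ := by linarith
  obtain ⟨X₀, hX₀⟩ := ev_log (max 6000 (8 * R₀))
  refine ⟨min (c₁ / 8) (1 / R₀), lt_min (by positivity) (by positivity), X₀,
    fun X hX c hc hcc z M hM1 hM2 => ?_⟩
  obtain ⟨hX1, m1, m2, m3, m4⟩ := hX₀ X hX
  have hc8 : c ≤ c₁ / 8 := hcc.trans (min_le_left _ _)
  have hcR : c ≤ 1 / R₀ := hcc.trans (min_le_right _ _)
  set Mx : ℝ := max 6000 (8 * R₀) with hMx
  have M1 : 6000 ≤ Mx := le_max_left _ _
  have M2 : 8 * R₀ ≤ Mx := le_max_right _ _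
  set l1 := Real.log X with hl1
  set l2 := Real.log l1 with hl2
  have p1 : 0 < l1 := by linarith
  have p2 : 0 < l2 := by linarith
  have hX0 : 0 < X := by linarith
  have hX1' : 1 < X := by
    rcases eq_or_lt_of_le hX1 with h | h
    · rw [hl1, ← h, Real.log_one] at p1
      exact absurd p1 (lt_irrefl _)
    · exact h
  have hs1 : 1 ≤ Real.sqrt l1 := by
    rw [Real.one_le_sqrt]
    linarith
  have hM1' : 1 ≤ M := hs1.trans hM1
  have hM0 : 0 < M := by linarith
  have hlM : l2 / 2 ≤ Real.log M := by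
    have h1 := Real.log_le_log (by linarith) hM1
    rwa [Real.log_sqrt p1.le] at h1
  have hlM1 : 1 ≤ Real.log M := by linarith
  have hlMpos : 0 < Real.log M := by linarith
  have hlMc : Real.log M ≤ c * l1 := by
    have h1 := Real.log_le_log hM0 hM2
    rwa [Real.log_rpow hX0] at h1
  have hlMR : R₀ * Real.log M ≤ l1 := by
    calc R₀ * Real.log M ≤ R₀ * (1 / R₀ * l1) := by
          apply mul_le_mul_of_nonneg_left _ hRpos.le
          exact hlMc.trans (mul_le_mul_of_nonneg_right hcR p1.le)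
      _ = l1 := by field_simp
  have hlM_le : Real.log M ≤ l1 := by
    have : 1 * Real.log M ≤ R₀ * Real.log M := mul_le_mul_of_nonneg_right (by linarith) hlMpos.le
    linarith
  have hr1 : 1 ≤ l1 / Real.log M := by
    rw [one_le_div hlMpos]
    exact hlM_le
  have hrl : l1 / Real.log M ≤ l1 := div_le_self p1.le hlM1
  have hrpos : 0 < l1 / Real.log M := by positivity
  have hlr0 : 0 ≤ Real.log (l1 / Real.log M) := Real.log_nonneg hr1
  have hlr1 : Real.log (l1 / Real.log M) ≤ l2 := Real.log_le_log hrpos hrl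
  have hc1 : c ≤ 1 := by
    refine hcR.trans ?_
    rw [div_le_one hRpos]
    linarith
  have hl12 : l2 ≤ l1 := by
    have := Real.log_le_sub_one_of_pos p1
    linarith
  have hW0 : 0 ≤ c * (l1 / Real.log M * Real.log (l1 / Real.log M)) := by positivity
  have hWl : c * (l1 / Real.log M * Real.log (l1 / Real.log M)) ≤ l1 ^ 2 := by
    calc c * (l1 / Real.log M * Real.log (l1 / Real.log M)) ≤ 1 * (l1 * l1) := by
          apply mul_le_mul hc1 _ (by positivity) (by norm_num)
          exact mul_le_mul hrl (hlr1.trans hl12) hlr0 p1.le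
      _ = l1 ^ 2 := by ring
  have hl1sq : 10 ≤ l1 ^ 2 := by
    rw [sq]
    calc (10 : ℝ) ≤ 10 * 1 := by norm_num
      _ ≤ l1 * l1 := mul_le_mul (by linarith) (by linarith) (by norm_num) p1.le
  rcases le_total (l1 ^ 2) M with h | h
  · -- large M
    refine hrun X M hX1' (by linarith) h hlMR z M hM1' le_rfl _ hW0 ?_ hWl
    apply mul_le_mul_of_nonneg_right (by linarith)
    positivity
  · -- middle range
    have hly : Real.log (l1 ^ 2) = 2 * l2 := by
      rw [Real.log_pow, hl2]
      norm_num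
    have q2 : l2 ^ 2 ≤ 4 * l1 := log_sq_le (by linarith)
    have hR2 : R₀ * (2 * l2) ≤ l1 := by
      have h1 : 8 * R₀ * l2 ≤ l2 * l2 := mul_le_mul_of_nonneg_right (by linarith) p2.le
      rw [← sq] at h1
      linarith
    have hexp : 2 * l2 ≤ Real.exp (l2 / 2) := by
      have h1 := Real.quadratic_le_exp_of_nonneg (x := l2 / 2) (by linarith)
      have h2 : 16 * l2 ≤ l2 ^ 2 := by
        rw [sq]
        exact mul_le_mul_of_nonneg_right (by linarith) p2.le
      have h3 : (l2 / 2) ^ 2 / 2 = l2 ^ 2 / 8 := by ring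
      linarith
    have hlog2 : Real.log (2 * l2) ≤ l2 / 2 := by
      rw [Real.log_le_iff_le_exp (by positivity)]
      exact hexp
    have hcap : l1 / 4 ≤ l1 / (2 * l2) * Real.log (l1 / (2 * l2)) := by
      rw [Real.log_div p1.ne' (by positivity)]
      calc l1 / 4 = l1 / (2 * l2) * (l2 / 2) := by field_simp; norm_num
        _ ≤ l1 / (2 * l2) * (Real.log l1 - Real.log (2 * l2)) := by
          apply mul_le_mul_of_nonneg_left _ (by positivity)
          rw [← hl2]
          linarith
    refine hrun X (l1 ^ 2) hX1' hl1sq le_rfl (by rw [hly]; exact hR2) z M hM1' h _ hW0 ?_ hWl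
    rw [hly]
    calc c * (l1 / Real.log M * Real.log (l1 / Real.log M))
        ≤ c₁ / 8 * (l1 / (l2 / 2) * l2) := by gcongr
      _ = c₁ * (l1 / 4) := by field_simp; ring
      _ ≤ c₁ * (l1 / (2 * l2) * Real.log (l1 / (2 * l2))) := by gcongr

/-- the theorem -/
theorem runs : ∃ c : ℝ, 0 < c ∧ ∃ X₀ : ℝ, ∀ X : ℝ, X₀ ≤ X → ∀ (z : ℕ) (M : ℝ), 1 ≤ M →
    (M ≤ Real.log X / Real.log (Real.log X) ^ 4 →
      Run z X M (c * (ff X / (1 + Real.log M))) ∧
      Run z X M (c * (Real.log X * Real.log (Real.log X) / Real.log (Real.log (Real.log X))))) ∧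
    (Real.sqrt (Real.log X) ≤ M → M ≤ X ^ c →
      Run z X M (c * (Real.log X / Real.log M * Real.log (Real.log X / Real.log M)))) := by
  obtain ⟨c₁, hc₁, X₁, h₁⟩ := part_one
  obtain ⟨c₂, hc₂, X₂, h₂⟩ := part_two
  obtain ⟨c₃, hc₃, X₃, h₃⟩ := part_three
  obtain ⟨X₄, h₄⟩ := ev_log 6000
  refine ⟨min (min c₁ (c₂ / 40)) c₃, lt_min (lt_min hc₁ (by positivity)) hc₃,
    max (max X₁ X₂) (max X₃ X₄), fun X hX z M hM1 => ?_⟩
  have hX1 := ((le_max_left X₁ X₂).trans (le_max_left _ _)).trans hX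
  have hX2 := ((le_max_right X₁ X₂).trans (le_max_left _ _)).trans hX
  have hX3 := ((le_max_left X₃ X₄).trans (le_max_right _ _)).trans hX
  have hX4 := ((le_max_right X₃ X₄).trans (le_max_right _ _)).trans hX
  obtain ⟨hX1', m1, m2, m3, m4⟩ := h₄ X hX4
  set c := min (min c₁ (c₂ / 40)) c₃ with hc
  have hcpos : 0 < c := lt_min (lt_min hc₁ (by positivity)) hc₃
  have hcc₁ : c ≤ c₁ := (min_le_left _ _).trans (min_le_left _ _)
  have hcc₂ : c ≤ c₂ / 40 := (min_le_left _ _).trans (min_le_right _ _)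
  have hcc₃ : c ≤ c₃ := min_le_right _ _
  have hff : ff X = Real.log X * Real.log (Real.log X) ^ 2 *
    Real.log (Real.log (Real.log (Real.log X))) / Real.log (Real.log (Real.log X)) ^ 2 := rfl
  obtain ⟨f1, f2, f3, f4, f5, f6⟩ := yfacts (l1 := Real.log X) (by linarith) (by linarith)
    (by linarith) (by linarith)
  set l1 := Real.log X with hl1
  set l2 := Real.log l1 with hl2
  set l3 := Real.log l2 with hl3
  set l4 := Real.log l3 with hl4
  have p1 : 0 < l1 := by linarith
  have p2 : 0 < l2 := by linarith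
  have p3 : 0 < l3 := by linarith
  have p4 : 0 < l4 := by linarith
  have hlM0 : 0 ≤ Real.log M := Real.log_nonneg hM1
  refine ⟨fun hM => ⟨?_, ?_⟩, fun hMs hMX => ?_⟩
  · rcases le_or_gt (Real.log M) (Real.log (l1 / 10) * Real.log (Real.log (Real.log (l1 / 10))) /
      (10 * Real.log (Real.log (l1 / 10)))) with h | h
    · refine (h₁ X hX1 z M hM1 h).mono ?_
      apply mul_le_mul_of_nonneg_right hcc₁
      rw [hff]
      positivity
    · refine (h₂ X hX2 z M hM1 hM).mono ?_
      have h5 : l2 * l4 / (40 * l3) ≤ 1 + Real.log M := by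
        have pb : 0 < Real.log (Real.log (l1 / 10)) := by linarith
        have pa : 0 ≤ Real.log (l1 / 10) := by linarith
        have pd : 0 ≤ Real.log (Real.log (Real.log (l1 / 10))) := by linarith
        have pad := mul_nonneg pa pd
        calc l2 * l4 / (40 * l3) = (l2 / 2) * (l4 / 2) / (10 * l3) := by ring
          _ ≤ Real.log (l1 / 10) * Real.log (Real.log (Real.log (l1 / 10))) /
              (10 * Real.log (Real.log (l1 / 10))) := by gcongr
          _ ≤ 1 + Real.log M := by linarith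
      calc c * (ff X / (1 + Real.log M)) ≤ c₂ / 40 * (ff X / (l2 * l4 / (40 * l3))) := by
            have h6 : 0 ≤ ff X := by rw [hff]; positivity
            gcongr
        _ = c₂ * (l1 * l2 / l3) := by
            rw [hff]
            field_simp
  · refine (h₂ X hX2 z M hM1 hM).mono ?_
    apply mul_le_mul_of_nonneg_right (by linarith)
    positivity
  · exact h₃ X hX3 c hcpos hcc₃ z M hMs hMX

end Pool.Agent.Y824
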